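import Pool.Agent.Jammed.Local

/-!
# Gauge fixing and the passage from local to continuous rigidity
-/

namespace Pool.Agent.Jammed

open scoped BigOperators

variable {ι K Λ : Type*} [Fintype ι] [DecidableEq ι] [Fintype K] [Fintype Λ]

lemma sum_two {i j : ι} (hij : i ≠ j) (X Y : ℝ) :
    ∑ a, (if a = i then X else if a = j then Y else 0) = X + Y := by
  have : ∀ a, (if a = i then X else if a = j then Y else 0)
      = (if a = i then X else 0) + (if a = j then Y else 0) := by
    intro a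
    by_cases h1 : a = i
    · subst h1
      simp [hij]
    · simp [h1]
  simp_rw [this, Finset.sum_add_distrib]
  simp

/-- The plane rotation in the coordinates `i, j`. -/
noncomputable def rotLin (i j : ι) (c s : ℝ) : EuclideanSpace ℝ ι →ₗ[ℝ] EuclideanSpace ℝ ι where
  toFun v := WithLp.toLp 2 (fun a => v a + (if a = i then (c - 1) * v i - s * v j
    else if a = j then s * v i + (c - 1) * v j else 0))
  map_add' v w := by
    ext a
    simp only [PiLp.add_apply]
    split_ifs <;> ring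
  map_smul' r v := by
    ext a
    simp only [PiLp.smul_apply, smul_eq_mul, RingHom.id_apply]
    split_ifs <;> ring

lemma rotLin_apply (i j : ι) (c s : ℝ) (v : EuclideanSpace ℝ ι) (a : ι) :
    rotLin i j c s v a = v a + (if a = i then (c - 1) * v i - s * v j
    else if a = j then s * v i + (c - 1) * v j else 0) := rfl

lemma rotLin_norm {i j : ι} (hij : i ≠ j) {c s : ℝ} (hcs : c ^ 2 + s ^ 2 = 1)
    (v : EuclideanSpace ℝ ι) : ‖rotLin i j c s v‖ = ‖v‖ := by
  have h : ‖rotLin i j c s v‖ ^ 2 = ‖v‖ ^ 2 := by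
    rw [norm_sq_eq_sum, norm_sq_eq_sum]
    have e : ∀ a, rotLin i j c s v a * rotLin i j c s v a = v a * v a +
        (if a = i then (c * v i - s * v j) ^ 2 - v i ^ 2
          else if a = j then (s * v i + c * v j) ^ 2 - v j ^ 2 else 0) := by
      intro a
      rw [rotLin_apply]
      by_cases h1 : a = i
      · subst h1
        simp only [if_true]
        ring
      · by_cases h2 : a = j
        · subst h2
          simp only [h1, if_true, if_false]
          ring
        · simp [h1, h2]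
    simp_rw [e, Finset.sum_add_distrib]
    rw [sum_two hij]
    have : (c * v i - s * v j) ^ 2 - v i ^ 2 + ((s * v i + c * v j) ^ 2 - v j ^ 2)
      = (c ^ 2 + s ^ 2 - 1) * (v i ^ 2 + v j ^ 2) := by ring
    rw [this, hcs]
    ring
  have h1 := norm_nonneg (rotLin i j c s v)
  have h2 := norm_nonneg v
  nlinarith [sq_nonneg (‖rotLin i j c s v‖ - ‖v‖), sq_nonneg (‖rotLin i j c s v‖ + ‖v‖)]

lemma inner_eq_sum (v w : EuclideanSpace ℝ ι) : inner ℝ v w = ∑ a, v a * w a := by
  rw [PiLp.inner_apply]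
  exact Finset.sum_congr rfl fun a _ => by simp [mul_comm]

lemma rotLin_inner {i j : ι} (hij : i ≠ j) (c s : ℝ) (z x : EuclideanSpace ℝ ι) :
    inner ℝ (rotLin i j c s z) x = inner ℝ z x + ((c - 1) * (z i * x i + z j * x j)
      + s * (z i * x j - z j * x i)) := by
  rw [inner_eq_sum, inner_eq_sum]
  have e : ∀ a, rotLin i j c s z a * x a = z a * x a +
      (if a = i then ((c - 1) * z i - s * z j) * x i
        else if a = j then (s * z i + (c - 1) * z j) * x j else 0) := by
    intro a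
    rw [rotLin_apply]
    by_cases h1 : a = i
    · subst h1
      simp only [if_true]
      ring
    · by_cases h2 : a = j
      · subst h2
        simp only [h1, if_true, if_false]
        ring
      · simp [h1, h2]
  simp_rw [e, Finset.sum_add_distrib]
  rw [sum_two hij]
  ring

/-- The set of norm preserving continuous linear maps. -/
def isoSet (ι : Type*) [Fintype ι] : Set (EuclideanSpace ℝ ι →L[ℝ] EuclideanSpace ℝ ι) :=
  {f | ∀ v, ‖f v‖ = ‖v‖}

lemma isCompact_isoSet : IsCompact (isoSet ι) := by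
  have : ProperSpace (EuclideanSpace ℝ ι →L[ℝ] EuclideanSpace ℝ ι) :=
    FiniteDimensional.proper_real _
  refine Metric.isCompact_of_isClosed_isBounded ?_ ?_
  · have : isoSet ι = ⋂ v, {f | ‖f v‖ = ‖v‖} := by
      ext f
      simp [isoSet]
    rw [this]
    refine isClosed_iInter fun v => isClosed_eq ?_ continuous_const
    exact ((ContinuousLinearMap.apply ℝ (EuclideanSpace ℝ ι) v).continuous).norm
  · refine (Metric.isBounded_iff_subset_closedBall 0).2 ⟨1, fun f hf => ?_⟩
    rw [mem_closedBall_zero_iff]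
    exact ContinuousLinearMap.opNorm_le_bound _ zero_le_one fun v => by
      rw [hf v, one_mul]

/-- an element of `isoSet` as an isometric equivalence -/
noncomputable def isoEquiv (f : EuclideanSpace ℝ ι →L[ℝ] EuclideanSpace ℝ ι)
    (hf : f ∈ isoSet ι) : EuclideanSpace ℝ ι ≃ₗᵢ[ℝ] EuclideanSpace ℝ ι :=
  (⟨f.toLinearMap, hf⟩ : EuclideanSpace ℝ ι →ₗᵢ[ℝ] EuclideanSpace ℝ ι).toLinearIsometryEquiv rfl

lemma isoEquiv_apply (f : EuclideanSpace ℝ ι →L[ℝ] EuclideanSpace ℝ ι)
    (hf : f ∈ isoSet ι) (v) : isoEquiv f hf v = f v := rfl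

lemma mem_isoSet_equiv (A : EuclideanSpace ℝ ι ≃ₗᵢ[ℝ] EuclideanSpace ℝ ι) :
    (A.toLinearIsometry.toContinuousLinearMap) ∈ isoSet ι := fun v => by
  simp

theorem exists_gauge (x y : K → EuclideanSpace ℝ ι) :
    ∃ A : EuclideanSpace ℝ ι ≃ₗᵢ[ℝ] EuclideanSpace ℝ ι,
      (∑ k, ‖A (y k) - x k‖ ^ 2 ≤ ∑ k, ‖y k - x k‖ ^ 2) ∧
      ∀ i j, ∑ k, ((A (y k)) i * x k j - (A (y k)) j * x k i) = 0 := by
  obtain ⟨f, hf, hmin⟩ := (isCompact_isoSet (ι := ι)).exists_isMinOn
    (f := fun f => ∑ k, ‖f (y k) - x k‖ ^ 2)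
    ⟨ContinuousLinearMap.id ℝ _, fun v => rfl⟩ (by
      refine Continuous.continuousOn ?_
      refine continuous_finset_sum _ fun k _ => ?_
      exact ((((ContinuousLinearMap.apply ℝ (EuclideanSpace ℝ ι) (y k)).continuous).sub
        continuous_const).norm).pow 2)
  have hmin' : ∀ g ∈ isoSet ι, ∑ k, ‖f (y k) - x k‖ ^ 2 ≤ ∑ k, ‖g (y k) - x k‖ ^ 2 :=
    fun g hg => hmin hg
  refine ⟨isoEquiv f hf, ?_, ?_⟩
  · simp_rw [isoEquiv_apply]
    simpa using hmin' (ContinuousLinearMap.id ℝ _) (fun v => rfl)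
  · intro i j
    simp_rw [isoEquiv_apply]
    by_cases hij : i = j
    · subst hij
      simp
    · set z : K → EuclideanSpace ℝ ι := fun k => f (y k) with hz
      set Q : ℝ := ∑ k, (z k i * x k i + z k j * x k j) with hQ
      set S : ℝ := ∑ k, (z k i * x k j - z k j * x k i) with hS
      have key : ∀ c s : ℝ, c ^ 2 + s ^ 2 = 1 → (c - 1) * Q + s * S ≤ 0 := by
        intro c s hcs
        let g : EuclideanSpace ℝ ι →L[ℝ] EuclideanSpace ℝ ι :=
          (LinearMap.toContinuousLinearMap (rotLin i j c s)).comp f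
        have hg : g ∈ isoSet ι := by
          intro v
          have : g v = rotLin i j c s (f v) := rfl
          rw [this, rotLin_norm hij hcs, hf v]
        have h1 := hmin' g hg
        have hgk : ∀ k, g (y k) = rotLin i j c s (z k) := fun k => rfl
        have e1 : ∀ k, ‖g (y k) - x k‖ ^ 2 = ‖z k - x k‖ ^ 2
            - 2 * ((c - 1) * (z k i * x k i + z k j * x k j)
              + s * (z k i * x k j - z k j * x k i)) := by
          intro k
          rw [hgk, norm_sub_sq_real, norm_sub_sq_real, rotLin_norm hij hcs, rotLin_inner hij]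
          ring
        simp_rw [e1] at h1
        rw [Finset.sum_sub_distrib, ← Finset.mul_sum, Finset.sum_add_distrib,
          ← Finset.mul_sum, ← Finset.mul_sum] at h1
        have : ∑ k, ‖f (y k) - x k‖ ^ 2 = ∑ k, ‖z k - x k‖ ^ 2 := rfl
        rw [this] at h1
        linarith
      have key2 : ∀ τ : ℝ, τ * S ≤ τ ^ 2 * Q := by
        intro τ
        have hpos : 0 < 1 + τ ^ 2 := by positivity
        have h1 := key ((1 - τ ^ 2) / (1 + τ ^ 2)) (2 * τ / (1 + τ ^ 2)) (by
          field_simp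
          ring)
        have e : ((1 - τ ^ 2) / (1 + τ ^ 2) - 1) * Q + 2 * τ / (1 + τ ^ 2) * S
            = (2 / (1 + τ ^ 2)) * (τ * S - τ ^ 2 * Q) := by
          field_simp
          ring
        rw [e] at h1
        have h2 : 0 < 2 / (1 + τ ^ 2) := by positivity
        by_contra hcon
        push Not at hcon
        have : 0 < (2 / (1 + τ ^ 2)) * (τ * S - τ ^ 2 * Q) := mul_pos h2 (by linarith)
        linarith
      have h3 := key2 (S / (Q ^ 2 + 1))
      have hpos : 0 < Q ^ 2 + 1 := by positivity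
      have e : S / (Q ^ 2 + 1) * S - (S / (Q ^ 2 + 1)) ^ 2 * Q
          = S ^ 2 * (Q ^ 2 + 1 - Q) / (Q ^ 2 + 1) ^ 2 := by
        field_simp
      have h4 : S ^ 2 * (Q ^ 2 + 1 - Q) / (Q ^ 2 + 1) ^ 2 ≤ 0 := by
        rw [← e]
        linarith
      have h5 : 0 < Q ^ 2 + 1 - Q := by nlinarith [sq_nonneg (Q - 1)]
      by_contra hne
      have h6 : 0 < S ^ 2 * (Q ^ 2 + 1 - Q) / (Q ^ 2 + 1) ^ 2 := by
        have : 0 < S ^ 2 := by positivity
        positivity
      linarith

theorem continuous_rigid (x : K → EuclideanSpace ℝ ι) (s t : Λ → K) (κ : ℝ)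
    (h : InfJammed x s t κ) (γ : K → Set.Icc (0 : ℝ) 1 → EuclideanSpace ℝ ι)
    (hcont : ∀ k, Continuous (γ k)) (h0 : ∀ k, γ k 0 = x k) (h1 : ∀ k r, ‖γ k r‖ = 1)
    (h2 : ∀ k l, k ≠ l → ∀ r, inner ℝ (γ k r) (γ l r) ≤ 1 / 2) (r : Set.Icc (0 : ℝ) 1) :
    ∃ A : EuclideanSpace ℝ ι ≃ₗᵢ[ℝ] EuclideanSpace ℝ ι, ∀ k, γ k r = A (x k) := by
  obtain ⟨ε, hε, hloc⟩ := local_rigid x s t κ h
  let T : Set (Set.Icc (0 : ℝ) 1) := {r | ∃ A : EuclideanSpace ℝ ι ≃ₗᵢ[ℝ] EuclideanSpace ℝ ι,
    ∀ k, γ k r = A (x k)}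
  have hne : T.Nonempty := ⟨0, LinearIsometryEquiv.refl ℝ _, fun k => by simp [h0]⟩
  have hopen : IsOpen T := by
    rw [isOpen_iff_mem_nhds]
    rintro r₀ ⟨A₀, hA₀⟩
    have hc : Continuous fun r => ∑ k, ‖A₀.symm (γ k r) - x k‖ ^ 2 := by
      refine continuous_finset_sum _ fun k _ => ?_
      exact (((A₀.symm.continuous.comp (hcont k)).sub continuous_const).norm).pow 2
    have hz : ∑ k, ‖A₀.symm (γ k r₀) - x k‖ ^ 2 = 0 := by
      refine Finset.sum_eq_zero fun k _ => ?_
      rw [hA₀ k]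
      simp
    have hnhds : {r | ∑ k, ‖A₀.symm (γ k r) - x k‖ ^ 2 < ε ^ 2} ∈ nhds r₀ := by
      refine (isOpen_lt hc continuous_const).mem_nhds ?_
      change ∑ k, ‖A₀.symm (γ k r₀) - x k‖ ^ 2 < ε ^ 2
      rw [hz]
      positivity
    refine Filter.mem_of_superset hnhds fun r hr => ?_
    obtain ⟨A, hA1, hA2⟩ := exists_gauge x (fun k => A₀.symm (γ k r))
    let d : K → EuclideanSpace ℝ ι := fun k => A (A₀.symm (γ k r)) - x k
    have hxd : ∀ k, x k + d k = A (A₀.symm (γ k r)) := fun k => by simp [d]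
    have hd : d = 0 := by
      refine hloc d ?_ ?_ ?_ ?_
      · intro k
        rw [hxd]
        simp [h1]
      · intro l
        rw [hxd, hxd]
        simpa using h2 (s l) (t l) (h.ne l) r
      · intro i j
        have e := hA2 i j
        rw [← e]
        refine Finset.sum_congr rfl fun k _ => ?_
        simp only [d, PiLp.sub_apply]
        ring
      · intro k
        have e1 : ‖d k‖ ^ 2 ≤ ∑ k, ‖A (A₀.symm (γ k r)) - x k‖ ^ 2 :=
          Finset.single_le_sum (f := fun k => ‖A (A₀.symm (γ k r)) - x k‖ ^ 2)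
            (fun _ _ => sq_nonneg _) (Finset.mem_univ k)
        have e2 : ‖d k‖ ^ 2 < ε ^ 2 := lt_of_le_of_lt (e1.trans hA1) hr
        exact lt_of_pow_lt_pow_left₀ 2 hε.le e2
    refine ⟨A.symm.trans A₀, fun k => ?_⟩
    have e : A (A₀.symm (γ k r)) = x k := by
      have := hxd k
      rw [hd] at this
      simpa using this.symm
    rw [← e]
    simp
  have hclosed : IsClosed T := by
    let S : Set (Set.Icc (0 : ℝ) 1 × (EuclideanSpace ℝ ι →L[ℝ] EuclideanSpace ℝ ι)) :=
      (Set.univ ×ˢ isoSet ι) ∩ ⋂ k, {p | p.2 (x k) = γ k p.1}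
    have hS : IsCompact S := by
      refine (isCompact_univ.prod isCompact_isoSet).inter_right ?_
      refine isClosed_iInter fun k => isClosed_eq ?_ ?_
      · exact (ContinuousLinearMap.apply ℝ (EuclideanSpace ℝ ι) (x k)).continuous.comp
          continuous_snd
      · exact (hcont k).comp continuous_fst
    have hT : T = Prod.fst '' S := by
      ext r
      constructor
      · rintro ⟨A, hA⟩
        refine ⟨(r, A.toLinearIsometry.toContinuousLinearMap), ⟨⟨trivial, mem_isoSet_equiv A⟩,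
          ?_⟩, rfl⟩
        simp only [Set.mem_iInter]
        intro k
        exact (hA k).symm
      · rintro ⟨⟨r', f⟩, ⟨⟨-, hf⟩, hk⟩, rfl⟩
        simp only [Set.mem_iInter] at hk
        exact ⟨isoEquiv f hf, fun k => (hk k).symm⟩
    rw [hT]
    exact (hS.image continuous_fst).isClosed
  have huniv : T = Set.univ := IsClopen.eq_univ ⟨hclosed, hopen⟩ hne
  have : r ∈ T := by rw [huniv]; trivial
  exact this

end Pool.Agent.Jammed
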