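import Pool.Agent.Jammed.Greedy
import Pool.Agent.Jammed.Gauge

/-!
# The configuration attached to a code is infinitesimally jammed
-/

namespace Pool.Agent.Jammed

open scoped BigOperators

variable {ι : Type*} [Fintype ι] [DecidableEq ι]

/-- the unit vector attached to a binary word -/
noncomputable def vec (c : ι → ZMod 2) : EuclideanSpace ℝ ι :=
  WithLp.toLp 2 (fun i => chi (c i) / Real.sqrt (Fintype.card ι))

lemma vec_apply (c : ι → ZMod 2) (i : ι) :
    vec c i = chi (c i) / Real.sqrt (Fintype.card ι) := rfl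

lemma sum_chi_wt (c : ι → ZMod 2) : ∑ i, chi (c i) = Fintype.card ι - 2 * (wt c : ℝ) := by
  have h : ∀ i, chi (c i) = 1 - 2 * (if c i = 1 then (1 : ℝ) else 0) := by
    intro i
    rcases zmod2_cases (c i) with h | h <;> rw [h] <;> norm_num
  simp_rw [h]
  rw [Finset.sum_sub_distrib, ← Finset.mul_sum]
  simp [wt]

section

variable [Nonempty ι]

lemma sqrt_card_pos : 0 < Real.sqrt (Fintype.card ι) := by
  rw [Real.sqrt_pos]
  exact_mod_cast Fintype.card_pos

lemma inner_vec (c c' : ι → ZMod 2) :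
    inner ℝ (vec c) (vec c') = 1 - 2 * (wt (c + c') : ℝ) / Fintype.card ι := by
  have hpos := sqrt_card_pos (ι := ι)
  have hsq : Real.sqrt (Fintype.card ι) * Real.sqrt (Fintype.card ι) = Fintype.card ι :=
    Real.mul_self_sqrt (Nat.cast_nonneg _)
  have hn : (0 : ℝ) < Fintype.card ι := by exact_mod_cast Fintype.card_pos
  rw [inner_eq_sum]
  have h : ∀ i, vec c i * vec c' i = chi ((c + c') i) / Fintype.card ι := by
    intro i
    rw [vec_apply, vec_apply, div_mul_div_comm, hsq, Pi.add_apply, chi_add]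
  simp_rw [h]
  rw [← Finset.sum_div, sum_chi_wt]
  field_simp

lemma norm_vec (c : ι → ZMod 2) : ‖vec c‖ = 1 := by
  have h : ‖vec c‖ ^ 2 = 1 := by
    rw [← real_inner_self_eq_norm_sq, inner_vec]
    have : c + c = 0 := by
      funext i
      exact zmod2_add_self _
    rw [this]
    have : wt (0 : ι → ZMod 2) = 0 := by
      unfold wt
      simp
    rw [this]
    simp
  have h0 := norm_nonneg (vec c)
  nlinarith

end

lemma sum_chi_affine {m : ℕ} {α : Fin m → ZMod 2} (hα : α ≠ 0) (a : ZMod 2) :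
    ∑ x : Fin m → ZMod 2, chi (dotProduct α x + a) = 0 := by
  have h := sum_chi_dot α
  rw [if_neg hα] at h
  have e : ∀ x : Fin m → ZMod 2, chi (dotProduct α x + a) = chi (dotProduct x α) * chi a := by
    intro x
    rw [chi_add, dotProduct_comm]
  simp_rw [e]
  rw [← Finset.sum_mul, h, zero_mul]

lemma wt_fl {m : ℕ} {α β : Fin m → ZMod 2} (hα : α ≠ 0) (hβ : β ≠ 0) (hαβ : α ≠ β)
    (a b : ZMod 2) : 4 * wt (fl α a β b) = 2 ^ m := by
  have h1 := sum_chi_wt (fl α a β b)
  have hcard : (Fintype.card (Fin m → ZMod 2) : ℝ) = 2 ^ m := by simp [Fintype.card_pi, ZMod.card]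
  rw [hcard] at h1
  have e : ∀ x, chi (fl α a β b x) = 1 / 2 + (1 / 2) * chi (dotProduct α x + a)
      + (1 / 2) * chi (dotProduct β x + b)
      - (1 / 2) * chi (dotProduct (α + β) x + (a + b)) := by
    intro x
    unfold fl
    rw [chi_mul]
    simp only [chi_add, add_dotProduct]
    ring
  have hne : α + β ≠ 0 := fun h => hαβ ((add_eq_zero_iff_eq' _ _).1 h)
  simp_rw [e] at h1
  rw [Finset.sum_sub_distrib, Finset.sum_add_distrib, Finset.sum_add_distrib,
    ← Finset.mul_sum, ← Finset.mul_sum, ← Finset.mul_sum, sum_chi_affine hα, sum_chi_affine hβ,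
    sum_chi_affine hne, Finset.sum_const, Finset.card_univ, nsmul_eq_mul, hcard] at h1
  have h2 : (4 : ℝ) * wt (fl α a β b) = 2 ^ m := by linarith
  exact_mod_cast h2

/-- pairs of independent directions -/
abbrev PairT (m : ℕ) := {q : (Fin m → ZMod 2) × (Fin m → ZMod 2) // q.1 ≠ 0 ∧ q.2 ≠ 0 ∧ q.1 ≠ q.2}

lemma sum_chi_fl {m : ℕ} (y : Fin m → ZMod 2) :
    ∑ φ : PairT m × (ZMod 2 × ZMod 2), chi (fl φ.1.1.1 φ.2.1 φ.1.1.2 φ.2.2 y)
      = 2 * (Fintype.card (PairT m) : ℝ) := by
  rw [Fintype.sum_prod_type]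
  have h : ∀ q : PairT m, ∑ ab : ZMod 2 × ZMod 2, chi (fl q.1.1 ab.1 q.1.2 ab.2 y) = 2 := by
    intro q
    rw [Fintype.sum_prod_type]
    unfold fl
    generalize dotProduct q.1.1 y = p
    generalize dotProduct q.1.2 y = r
    have e : ∀ f : ZMod 2 → ℝ, ∑ a, f a = f 0 + f 1 := fun f => Fin.sum_univ_two f
    simp only [e]
    have h11 : (1 : ZMod 2) + 1 = 0 := rfl
    rcases zmod2_cases p with rfl | rfl <;> rcases zmod2_cases r with rfl | rfl <;>
      simp only [h11, add_zero, zero_add, mul_zero, zero_mul, mul_one, chi_zero, chi_one] <;>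
      norm_num
  simp only [h]
  simp [mul_comm]

section Main

variable {m : ℕ} {C : Submodule (ZMod 2) (ι → ZMod 2)}

/-- translating by a code word is a permutation of the code -/
lemma sum_translate [Fintype C] (D : C) (f : C → ℝ) : ∑ c : C, f (c + D) = ∑ c : C, f c :=
  Fintype.sum_equiv (Equiv.addRight D) _ _ fun _ => rfl

lemma stress_general [Fintype C] {T : Type*} [Fintype T] (D : T → C) (M : ℝ)
    (hM : ∀ i, ∑ τ, chi ((D τ : ι → ZMod 2) i) = M) (d : C → EuclideanSpace ℝ ι) :
    ∑ l : T × C, (inner ℝ (vec (l.2 : ι → ZMod 2)) (d (l.2 + D l.1))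
        + inner ℝ (d l.2) (vec ((l.2 + D l.1 : C) : ι → ZMod 2)))
      = (2 * M) * ∑ c : C, inner ℝ (vec (c : ι → ZMod 2)) (d c) := by
  rw [Fintype.sum_prod_type]
  have h1 : ∀ τ : T, ∑ c : C, (inner ℝ (vec (c : ι → ZMod 2)) (d (c + D τ))
        + inner ℝ (d c) (vec ((c + D τ : C) : ι → ZMod 2)))
      = 2 * ∑ c : C, inner ℝ (d c) (vec ((c + D τ : C) : ι → ZMod 2)) := by
    intro τ
    rw [Finset.sum_add_distrib, two_mul]
    congr 1
    have hDD : D τ + D τ = 0 := by
      ext i
      exact zmod2_add_self _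
    have := sum_translate (D τ)
      (fun c => inner ℝ (d c) (vec ((c + D τ : C) : ι → ZMod 2)))
    rw [← this]
    refine Finset.sum_congr rfl fun c _ => ?_
    rw [real_inner_comm]
    have e : c + D τ + D τ = c := by rw [add_assoc, hDD, add_zero]
    simp only [e]
  simp_rw [h1]
  rw [← Finset.mul_sum, Finset.sum_comm, mul_assoc]
  congr 1
  rw [Finset.mul_sum]
  refine Finset.sum_congr rfl fun c _ => ?_
  simp_rw [inner_eq_sum, Finset.mul_sum]
  rw [Finset.sum_comm]
  refine Finset.sum_congr rfl fun i _ => ?_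
  have h2 : ∀ τ : T, d c i * vec ((c + D τ : C) : ι → ZMod 2) i
      = (d c i * vec (c : ι → ZMod 2) i) * chi ((D τ : ι → ZMod 2) i) := by
    intro τ
    rw [vec_apply, vec_apply]
    have : ((c + D τ : C) : ι → ZMod 2) i = (c : ι → ZMod 2) i + (D τ : ι → ZMod 2) i := rfl
    rw [this, chi_add]
    ring
  simp_rw [h2]
  rw [← Finset.mul_sum, hM]
  ring

lemma u_dichotomy (hm : 3 ≤ m) (Sg : Set (ι ≃ (Fin m → ZMod 2))) (hne : Sg.Nonempty)
    (hC : C = ⨆ σ ∈ Sg, PPc σ) (t : ι → ZMod 2) (u : ι → ℝ) (hu : ∑ i, u i = 0)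
    (H : ∀ σ ∈ Sg, ∀ α β : Fin m → ZMod 2, ∀ a b : ZMod 2, α ≠ 0 → β ≠ 0 → α ≠ β →
      ∑ i, t i * fl α a β b (σ i) = 0 → ∑ i, chi (fl α a β b (σ i)) * u i = 0) :
    ∃ (r : ℝ) (i j : ι), (∀ y, u y = r * ((if y = i then 1 else 0) - (if y = j then 1 else 0))) ∧
      (r = 0 ∨ ∀ c ∈ C, ∑ y, t y * c y = c i + c j) := by
  -- the statement for a single σ
  have single : ∀ σ ∈ Sg, ∃ (r : ℝ) (i j : ι),
      (∀ y, u y = r * ((if y = i then 1 else 0) - (if y = j then 1 else 0))) ∧
      (r = 0 ∨ ∀ α a β b, ∑ y, t y * fl α a β b (σ y) = fl α a β b (σ i) + fl α a β b (σ j)) := by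
    intro σ hσ
    obtain ⟨r, i', j', h1, h2⟩ := rm2_main hm (fun x => t (σ.symm x)) (fun x => u (σ.symm x))
      (by rw [← hu]; exact Equiv.sum_comp σ.symm u) (by
        intro α β a b hα hβ hαβ h0
        have e1 : ∑ x, t (σ.symm x) * fl α a β b x = ∑ i, t i * fl α a β b (σ i) := by
          rw [← Equiv.sum_comp σ]
          simp
        have e2 : ∑ x, chi (fl α a β b x) * u (σ.symm x) = ∑ i, chi (fl α a β b (σ i)) * u i := by
          rw [← Equiv.sum_comp σ]
          simp
        rw [e2]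
        rw [e1] at h0
        exact H σ hσ α β a b hα hβ hαβ h0)
    refine ⟨r, σ.symm i', σ.symm j', ?_, ?_⟩
    · intro y
      have := h1 (σ y)
      simp only [Equiv.symm_apply_apply] at this
      rw [this]
      simp only [Equiv.eq_symm_apply]
    · refine h2.imp id fun h2 α a β b => ?_
      have e1 : ∑ x, t (σ.symm x) * fl α a β b x = ∑ i, t i * fl α a β b (σ i) := by
        rw [← Equiv.sum_comp σ]
        simp
      rw [← e1, h2]
      simp
  obtain ⟨σ₀, hσ₀⟩ := hne
  obtain ⟨r, i, j, h1, h2⟩ := single σ₀ hσ₀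
  by_cases hz : ∀ y, u y = 0
  · exact ⟨0, i, j, fun y => by rw [hz y]; ring, Or.inl rfl⟩
  have hr : r ≠ 0 := by
    rintro rfl
    apply hz
    intro y
    rw [h1 y]
    ring
  have hij : i ≠ j := by
    rintro rfl
    apply hz
    intro y
    rw [h1 y]
    ring
  refine ⟨r, i, j, h1, Or.inr ?_⟩
  have hui : u i ≠ 0 := by
    rw [h1 i]
    simpa [hij] using hr
  have huj : u j ≠ 0 := by
    rw [h1 j]
    simpa [hij.symm] using hr
  have gen : ∀ σ ∈ Sg, ∀ α a β b, ∑ y, t y * fl α a β b (σ y)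
      = fl α a β b (σ i) + fl α a β b (σ j) := by
    intro σ hσ
    obtain ⟨r', i', j', h1', h2'⟩ := single σ hσ
    have hr' : r' ≠ 0 := by
      rintro rfl
      apply hz
      intro y
      rw [h1' y]
      ring
    have hi : i = i' ∨ i = j' := by
      by_contra hcon
      push Not at hcon
      apply hui
      rw [h1' i]
      simp [hcon.1, hcon.2]
    have hj : j = i' ∨ j = j' := by
      by_contra hcon
      push Not at hcon
      apply huj
      rw [h1' j]
      simp [hcon.1, hcon.2]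
    have h3 := h2'.resolve_left hr'
    intro α a β b
    rw [h3]
    rcases hi with rfl | rfl <;> rcases hj with rfl | rfl
    · exact absurd rfl hij
    · rfl
    · rw [add_comm]
    · exact absurd rfl hij
  -- linearity
  let L : (ι → ZMod 2) →ₗ[ZMod 2] ZMod 2 :=
    { toFun := fun c => ∑ y, t y * c y + (c i + c j)
      map_add' := fun c c' => by
        simp only [Pi.add_apply, mul_add, Finset.sum_add_distrib]
        ring
      map_smul' := fun s c => by
        simp only [Pi.smul_apply, smul_eq_mul, RingHom.id_apply, mul_add, Finset.mul_sum]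
        congr 1
        exact Finset.sum_congr rfl fun _ _ => by ring }
  have hker : C ≤ LinearMap.ker L := by
    rw [hC]
    refine iSup₂_le fun σ hσ => ?_
    unfold PPc PP
    rw [Submodule.map_le_iff_le_comap, Submodule.span_le]
    rintro c ⟨α, a, β, b, -, -, -, rfl⟩
    simp only [Submodule.comap_coe, Set.mem_preimage, SetLike.mem_coe, LinearMap.mem_ker, L,
      LinearMap.coe_mk, AddHom.coe_mk, LinearMap.funLeft_apply]
    rw [gen σ hσ, zmod2_add_self]
  intro c hc
  have h4 : ∑ y, t y * c y + (c i + c j) = 0 := hker hc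
  have h5 : ∑ y, t y * c y + (c i + c j) + (c i + c j) = c i + c j := by rw [h4, zero_add]
  rwa [add_assoc, zmod2_add_self, add_zero] at h5

end Main

end Pool.Agent.Jammed
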