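import Pool.Agent.Jammed.Weights

/-!
# Counting bijections
-/

namespace Pool.Agent.Jammed

open scoped BigOperators

/-! ### Binomial estimates -/

lemma g_step {n k a b x : ℕ} (hn : n = 32 * k) (ha : 8 * k ≤ a) (ha' : a ≤ 24 * k)
    (hb : 8 * k ≤ b) (hb' : b ≤ 24 * k) (hx : x + 1 ≤ a) (hx2 : a + b ≤ 2 * x + 10 * k) :
    2 * (b.choose (x + 1) * (n - b).choose (a - (x + 1)))
      ≤ b.choose x * (n - b).choose (a - x) := by
  by_cases hxb : b ≤ x
  · rw [Nat.choose_eq_zero_of_lt (by omega : b < x + 1)]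
    simp
  push Not at hxb
  by_cases hnb : n - b < a - (x + 1)
  · rw [Nat.choose_eq_zero_of_lt hnb]
    simp
  push Not at hnb
  obtain ⟨p, hp⟩ : ∃ p, a = x + 1 + p := ⟨a - (x + 1), by omega⟩
  obtain ⟨q, hq⟩ : ∃ q, b = x + 1 + q := ⟨b - (x + 1), by omega⟩
  obtain ⟨r, hr⟩ : ∃ r, n - b = p + r := ⟨n - b - p, by omega⟩
  have e1 : a - (x + 1) = p := by omega
  have e2 : a - x = p + 1 := by omega
  rw [e1, e2]
  have h1 : b.choose (x + 1) * (x + 1) = b.choose x * (q + 1) := by
    have := Nat.choose_succ_right_eq b x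
    rw [this]
    congr 1
    omega
  have h2 : (n - b).choose (p + 1) * (p + 1) = (n - b).choose p * r := by
    have := Nat.choose_succ_right_eq (n - b) p
    rw [this]
    congr 1
    omega
  have hr' : r + p + b = n := by omega
  -- the polynomial inequality
  have hpoly : 2 * ((q + 1) * (p + 1)) ≤ (x + 1) * r := by
    have h3 : p + q + 2 ≤ 10 * k := by omega
    have h4 : x + 1 + (x + 1) + p + q + r + (r + p + q) ≥ 0 := Nat.zero_le _
    -- s = a + b
    have hs1 : 16 * k ≤ a + b := by omega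
    have hs2 : a + b ≤ 48 * k := by omega
    have h5 : a + b ≤ 2 * (x + 1) + 10 * k := by omega
    have h6 : 54 * k ≤ 2 * r + (a + b) := by omega
    zify at *
    have hA : (0 : ℤ) ≤ (a + b : ℤ) - 10 * k := by linarith
    have hB : (0 : ℤ) ≤ 54 * (k : ℤ) - (a + b) := by linarith
    have hC : ((a : ℤ) + b - 10 * k) * (54 * k - (a + b)) ≤ (2 * (x + 1)) * (2 * r) := by
      apply mul_le_mul
      · linarith
      · linarith
      · exact hB
      · linarith
    have hD : 228 * (k : ℤ) ^ 2 ≤ ((a : ℤ) + b - 10 * k) * (54 * k - (a + b)) := by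
      nlinarith [mul_nonneg (by linarith : (0 : ℤ) ≤ (a : ℤ) + b - 16 * k)
        (by linarith : (0 : ℤ) ≤ 48 * (k : ℤ) - (a + b))]
    have hE : 4 * (((q : ℤ) + 1) * (p + 1)) ≤ 100 * (k : ℤ) ^ 2 := by
      have hF : ((q : ℤ) + 1 + (p + 1)) ^ 2 ≤ (10 * k) ^ 2 := by
        apply pow_le_pow_left₀
        · positivity
        · linarith
      nlinarith [sq_nonneg ((q : ℤ) + 1 - (p + 1))]
    nlinarith [sq_nonneg (k : ℤ)]
  have hpos : 0 < (x + 1) * r := lt_of_lt_of_le (by positivity) hpoly
  -- combine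
  have h7 : (b.choose (x + 1) * (n - b).choose p) * ((x + 1) * r)
      = (b.choose x * (n - b).choose (p + 1)) * ((q + 1) * (p + 1)) := by
    calc (b.choose (x + 1) * (n - b).choose p) * ((x + 1) * r)
        = (b.choose (x + 1) * (x + 1)) * ((n - b).choose p * r) := by ring
      _ = (b.choose x * (q + 1)) * ((n - b).choose (p + 1) * (p + 1)) := by rw [h1, h2]
      _ = _ := by ring
  have h8 : (2 * (b.choose (x + 1) * (n - b).choose p)) * ((x + 1) * r)
      ≤ (b.choose x * (n - b).choose (p + 1)) * ((x + 1) * r) := by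
    calc (2 * (b.choose (x + 1) * (n - b).choose p)) * ((x + 1) * r)
        = 2 * ((b.choose (x + 1) * (n - b).choose p) * ((x + 1) * r)) := by ring
      _ = (b.choose x * (n - b).choose (p + 1)) * (2 * ((q + 1) * (p + 1))) := by
          rw [h7]; ring
      _ ≤ _ := Nat.mul_le_mul_left _ hpoly
  exact Nat.le_of_mul_le_mul_right h8 hpos

lemma g_iter {n k a b : ℕ} (hn : n = 32 * k) (ha : 8 * k ≤ a) (ha' : a ≤ 24 * k)
    (hb : 8 * k ≤ b) (hb' : b ≤ 24 * k) (j x : ℕ) (hx : x + j ≤ a)
    (hx2 : a + b ≤ 2 * x + 10 * k) :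
    2 ^ j * (b.choose (x + j) * (n - b).choose (a - (x + j)))
      ≤ b.choose x * (n - b).choose (a - x) := by
  induction j with
  | zero => simp
  | succ j ih =>
    have h1 := g_step hn ha ha' hb hb' (x := x + j) (by omega) (by omega)
    have h2 := ih (by omega)
    have e : x + (j + 1) = x + j + 1 := by ring
    rw [e]
    calc 2 ^ (j + 1) * (b.choose (x + j + 1) * (n - b).choose (a - (x + j + 1)))
        = 2 ^ j * (2 * (b.choose (x + j + 1) * (n - b).choose (a - (x + j + 1)))) := by ring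
      _ ≤ 2 ^ j * (b.choose (x + j) * (n - b).choose (a - (x + j))) :=
          Nat.mul_le_mul_left _ h1
      _ ≤ _ := h2

lemma g_bound {n k a b x : ℕ} (hn : n = 32 * k) (ha : 8 * k ≤ a) (ha' : a ≤ 24 * k)
    (hb : 8 * k ≤ b) (hb' : b ≤ 24 * k) (hx : x ≤ a) (hx2 : a + b < 2 * x + 8 * k) :
    2 ^ k * (b.choose x * (n - b).choose (a - x)) ≤ n.choose a := by
  obtain ⟨y, rfl⟩ : ∃ y, x = y + k := ⟨x - k, by omega⟩
  have h1 := g_iter hn ha ha' hb hb' k y hx (by omega)
  refine h1.trans ?_
  have h2 := Nat.add_choose_eq b (n - b) a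
  rw [show b + (n - b) = n by omega] at h2
  rw [h2]
  have hmem : (y, a - y) ∈ Finset.HasAntidiagonal.antidiagonal a := by
    rw [Finset.HasAntidiagonal.mem_antidiagonal]
    simp only
    omega
  exact Finset.single_le_sum (f := fun ij : ℕ × ℕ => b.choose ij.1 * (n - b).choose ij.2)
    (fun _ _ => Nat.zero_le _) hmem

/-! ### Counting bijections -/

section Bij

variable {ι κ : Type*} [Fintype ι] [Fintype κ] [DecidableEq ι] [DecidableEq κ]

lemma exists_perm_map {S S' : Finset κ} (h : S.card = S'.card) :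
    ∃ τ : κ ≃ κ, S.map τ.toEmbedding = S' := by
  have e : {x // x ∈ S} ≃ {x // x ∈ S'} := Fintype.equivOfCardEq (by simpa using h)
  refine ⟨e.extendSubtype, ?_⟩
  refine Finset.eq_of_subset_of_card_le ?_ (by simp [h])
  intro y hy
  rw [Finset.mem_map] at hy
  obtain ⟨x, hx, rfl⟩ := hy
  exact e.extendSubtype_mem x hx

/-- the number of bijections carrying `A` to `S` -/
def NN (A : Finset ι) (S : Finset κ) : ℕ :=
  (Finset.univ.filter fun σ : ι ≃ κ => A.map σ.toEmbedding = S).card

lemma NN_le (A : Finset ι) {S S' : Finset κ} (h : S.card = S'.card) : NN A S ≤ NN A S' := by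
  obtain ⟨τ, hτ⟩ := exists_perm_map h
  unfold NN
  refine Finset.card_le_card_of_injOn (fun σ => σ.trans τ) ?_ ?_
  · intro σ hσ
    simp only [Finset.coe_filter, Finset.mem_univ, true_and, Set.mem_setOf_eq] at hσ ⊢
    rw [← hτ, ← hσ, Finset.map_map]
    rfl
  · intro σ _ σ' _ h
    ext x
    have := congrArg (fun f => f x) h
    simpa using this

lemma NN_eq (A : Finset ι) {S S' : Finset κ} (h : S.card = S'.card) : NN A S = NN A S' :=
  le_antisymm (NN_le A h) (NN_le A h.symm)

lemma card_filter_map_mem (A : Finset ι) (𝓢 : Finset (Finset κ)) :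
    (Finset.univ.filter fun σ : ι ≃ κ => A.map σ.toEmbedding ∈ 𝓢).card
      = ∑ S ∈ 𝓢, NN A S := by
  unfold NN
  rw [← Finset.card_biUnion]
  · congr 1
    ext σ
    simp
  · intro S _ S' _ hne
    rw [Function.onFun, Finset.disjoint_left]
    intro σ h1 h2
    simp only [Finset.mem_filter, Finset.mem_univ, true_and] at h1 h2
    exact hne (h1.symm.trans h2)

lemma count_sets (A : Finset ι) (𝓢 : Finset (Finset κ)) (h𝓢 : ∀ S ∈ 𝓢, S.card = A.card) :
    (Finset.univ.filter fun σ : ι ≃ κ => A.map σ.toEmbedding ∈ 𝓢).card *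
      (Fintype.card κ).choose A.card = 𝓢.card * Fintype.card (ι ≃ κ) := by
  by_cases hne : 𝓢 = ∅
  · subst hne
    simp
  obtain ⟨S₀, hS₀⟩ := Finset.nonempty_iff_ne_empty.2 hne
  have h1 : (Finset.univ.filter fun σ : ι ≃ κ => A.map σ.toEmbedding ∈ 𝓢).card
      = 𝓢.card * NN A S₀ := by
    rw [card_filter_map_mem, Finset.sum_congr rfl fun S hS =>
      NN_eq A ((h𝓢 S hS).trans (h𝓢 S₀ hS₀).symm)]
    simp
  have h2 : Fintype.card (ι ≃ κ) = (Fintype.card κ).choose A.card * NN A S₀ := by
    have h3 : (Finset.univ.filter fun σ : ι ≃ κ => A.map σ.toEmbedding ∈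
        Finset.powersetCard A.card (Finset.univ : Finset κ)).card = Fintype.card (ι ≃ κ) := by
      rw [Finset.filter_true_of_mem]
      · rfl
      · intro σ _
        simp [Finset.mem_powersetCard]
    rw [← h3, card_filter_map_mem, Finset.sum_congr rfl fun S hS =>
      NN_eq A (((Finset.mem_powersetCard.1 hS).2).trans (h𝓢 S₀ hS₀).symm)]
    simp
  rw [h1, h2]
  ring

lemma card_inter_sets (B : Finset κ) (a x : ℕ) :
    ((Finset.powersetCard a (Finset.univ : Finset κ)).filter fun S => (S ∩ B).card = x).card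
      ≤ B.card.choose x * (Fintype.card κ - B.card).choose (a - x) := by
  have h : ((Finset.powersetCard a (Finset.univ : Finset κ)).filter
      fun S => (S ∩ B).card = x).card
      ≤ ((Finset.powersetCard x B) ×ˢ (Finset.powersetCard (a - x) Bᶜ)).card := by
    refine Finset.card_le_card_of_injOn (fun S => (S ∩ B, S \ B)) ?_ ?_
    · intro S hS
      simp only [Finset.coe_filter, Finset.mem_powersetCard, Set.mem_setOf_eq] at hS
      simp only [Finset.coe_product, Set.mem_prod, Finset.mem_coe, Finset.mem_powersetCard]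
      refine ⟨⟨Finset.inter_subset_right, hS.2⟩, ?_, ?_⟩
      · intro y hy
        rw [Finset.mem_compl]
        exact (Finset.mem_sdiff.1 hy).2
      · have := Finset.card_inter_add_card_sdiff S B
        omega
    · intro S _ S' _ h
      simp only [Prod.mk.injEq] at h
      rw [← Finset.sdiff_union_inter S B, ← Finset.sdiff_union_inter S' B, h.1, h.2]
  refine h.trans (le_of_eq ?_)
  rw [Finset.card_product, Finset.card_powersetCard, Finset.card_powersetCard,
    Finset.card_compl]

end Bij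

end Pool.Agent.Jammed
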