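import Mathlib

/-!
# Kissing configurations and jamming

Definitions only.
-/

namespace Pool.Agent.Jammed

/-- A finite set `C` of unit vectors of `ℝⁿ` with `⟨x, y⟩ ≤ 1/2` for all distinct `x, y ∈ C`. -/
def IsKissing {n : ℕ} (C : Finset (EuclideanSpace ℝ (Fin n))) : Prop :=
  (∀ x ∈ C, ‖x‖ = 1) ∧ ∀ x ∈ C, ∀ y ∈ C, x ≠ y → inner ℝ x y ≤ 1 / 2

/-- `C` is jammed: each continuous motion `γ` of `C` (with time `t ∈ [0,1]`, starting at `C`,
staying on the unit sphere and keeping all inner products of distinct points `≤ 1/2`) is a rigid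
motion: for each time `t` there is an orthogonal map `A` (a linear isometry of `ℝⁿ`
onto itself) with `γ x t = A x` for all `x ∈ C`. -/
def IsJammed {n : ℕ} (C : Finset (EuclideanSpace ℝ (Fin n))) : Prop :=
  ∀ γ : C → Set.Icc (0 : ℝ) 1 → EuclideanSpace ℝ (Fin n),
    (∀ x, Continuous (γ x)) →
    (∀ x : C, γ x 0 = x) →
    (∀ x t, ‖γ x t‖ = 1) →
    (∀ x y : C, x ≠ y → ∀ t, inner ℝ (γ x t) (γ y t) ≤ 1 / 2) →
    ∀ t, ∃ A : EuclideanSpace ℝ (Fin n) ≃ₗᵢ[ℝ] EuclideanSpace ℝ (Fin n),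
      ∀ x : C, γ x t = A x

end Pool.Agent.Jammed
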