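import Pool.Agent.Jammed.Weights

/-!
# The code spanned by the flats: size
-/

namespace Pool.Agent.Jammed

open scoped BigOperators

variable {m : ℕ}

/-- homogeneous coordinates -/
def yy (x : Fin m → ZMod 2) : Option (Fin m) → ZMod 2
  | none => 1
  | some i => x i

/-- quadratic polynomials from coefficients -/
def Phi (m : ℕ) : ((Option (Fin m) × Option (Fin m)) → ZMod 2) →ₗ[ZMod 2]
    ((Fin m → ZMod 2) → ZMod 2) where
  toFun w := fun x => ∑ p : Option (Fin m) × Option (Fin m), w p * (yy x p.1 * yy x p.2)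
  map_add' w v := by
    funext x
    simp only [Pi.add_apply, ← Finset.sum_add_distrib]
    exact Finset.sum_congr rfl fun _ _ => by ring
  map_smul' r w := by
    funext x
    simp only [Pi.smul_apply, smul_eq_mul, RingHom.id_apply, Finset.mul_sum]
    exact Finset.sum_congr rfl fun _ _ => by ring

lemma sum_yy (α : Fin m → ZMod 2) (a : ZMod 2) (x : Fin m → ZMod 2) :
    ∑ p, (Option.elim p a α) * yy x p = dotProduct α x + a := by
  rw [Fintype.sum_option]
  simp only [Option.elim, yy, mul_one]
  rw [add_comm]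
  rfl

lemma fl_mem_range (α : Fin m → ZMod 2) (a : ZMod 2) (β : Fin m → ZMod 2) (b : ZMod 2) :
    fl α a β b ∈ LinearMap.range (Phi m) := by
  refine ⟨fun p => (Option.elim p.1 a α) * (Option.elim p.2 b β), ?_⟩
  funext x
  unfold fl
  rw [← sum_yy α a x, ← sum_yy β b x, Finset.sum_mul_sum]
  simp only [Phi, LinearMap.coe_mk, AddHom.coe_mk]
  rw [← Finset.univ_product_univ, Finset.sum_product]
  exact Finset.sum_congr rfl fun _ _ => Finset.sum_congr rfl fun _ _ => by ring

lemma PP_le_range (m : ℕ) : PP m ≤ LinearMap.range (Phi m) := by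
  unfold PP
  rw [Submodule.span_le]
  rintro c ⟨α, a, β, b, -, -, -, rfl⟩
  exact fl_mem_range α a β b

lemma card_PP (m : ℕ) : Nat.card (PP m) ≤ 2 ^ ((m + 1) ^ 2) := by
  have h1 : Nat.card (PP m) ≤ Nat.card (LinearMap.range (Phi m)) :=
    Nat.card_le_card_of_injective (Submodule.inclusion (PP_le_range m))
      (Submodule.inclusion_injective _)
  have h2 : Nat.card (LinearMap.range (Phi m))
      ≤ Nat.card ((Option (Fin m) × Option (Fin m)) → ZMod 2) :=
    Nat.card_le_card_of_surjective (Phi m).rangeRestrict (Phi m).surjective_rangeRestrict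
  refine (h1.trans h2).trans (le_of_eq ?_)
  rw [Nat.card_eq_fintype_card]
  simp [Fintype.card_pi, Fintype.card_prod, Fintype.card_option, ZMod.card, pow_two]

lemma one_mem_PP (hm : 2 ≤ m) : (1 : (Fin m → ZMod 2) → ZMod 2) ∈ PP m := by
  set α : Fin m → ZMod 2 := Pi.single ⟨0, by omega⟩ 1 with hα
  set β : Fin m → ZMod 2 := Pi.single ⟨1, by omega⟩ 1 with hβ
  have hα0 : α ≠ 0 := by
    intro h
    have := congrFun h ⟨0, by omega⟩
    simp [hα] at this
  have hβ0 : β ≠ 0 := by
    intro h
    have := congrFun h ⟨1, by omega⟩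
    simp [hβ] at this
  have hαβ : α ≠ β := by
    intro h
    have := congrFun h ⟨0, by omega⟩
    simp [hα, hβ, Pi.single_apply] at this
  have hmem : ∀ a b, fl α a β b ∈ PP m := fun a b =>
    Submodule.subset_span ⟨α, a, β, b, hα0, hβ0, hαβ, rfl⟩
  have h : (1 : (Fin m → ZMod 2) → ZMod 2) = fl α 0 β 0 + fl α 1 β 0 + fl α 0 β 1 + fl α 1 β 1 := by
    funext x
    simp only [Pi.add_apply, fl, Pi.one_apply]
    generalize dotProduct α x = p
    generalize dotProduct β x = q
    revert p q
    decide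
  rw [h]
  exact add_mem (add_mem (add_mem (hmem _ _) (hmem _ _)) (hmem _ _)) (hmem _ _)

end Pool.Agent.Jammed
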