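import Pool.Agent.Jammed.Count
import Pool.Agent.Jammed.Size

/-!
# Existence of large codes generated by copies of the second order Reed-Muller code
-/

namespace Pool.Agent.Jammed

open scoped BigOperators

section Bad

variable {ι κ : Type*} [Fintype ι] [Fintype κ] [DecidableEq ι] [DecidableEq κ]

lemma wt_equiv (p : κ → ZMod 2) (σ : ι ≃ κ) : wt (fun i => p (σ i)) = wt p := by
  unfold wt
  refine Finset.card_bij (fun i _ => σ i) ?_ ?_ ?_
  · intro i hi
    simpa using hi
  · intro i _ j _ h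
    exact σ.injective h
  · intro x hx
    exact ⟨σ.symm x, by simpa using hx, by simp⟩

lemma wt_identity (c : ι → ZMod 2) (p : κ → ZMod 2) (σ : ι ≃ κ) :
    wt (fun i => c i + p (σ i)) +
      2 * (((Finset.univ.filter fun i => c i = 1).map σ.toEmbedding) ∩
        (Finset.univ.filter fun x => p x = 1)).card = wt c + wt p := by
  have h1 : (((Finset.univ.filter fun i => c i = 1).map σ.toEmbedding) ∩
        (Finset.univ.filter fun x => p x = 1)).card
      = (Finset.univ.filter fun i => c i = 1 ∧ p (σ i) = 1).card := by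
    symm
    refine Finset.card_bij (fun i _ => σ i) ?_ ?_ ?_
    · intro i hi
      simpa using hi
    · intro i _ j _ h
      exact σ.injective h
    · intro x hx
      simp only [Finset.mem_inter, Finset.mem_map, Finset.mem_filter, Finset.mem_univ,
        true_and] at hx
      obtain ⟨⟨i, hi, rfl⟩, h2⟩ := hx
      exact ⟨i, by simpa using ⟨hi, h2⟩, rfl⟩
  rw [h1, ← wt_equiv p σ]
  unfold wt
  simp only [Finset.card_filter, Finset.mul_sum, ← Finset.sum_add_distrib]
  refine Finset.sum_congr rfl fun i _ => ?_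
  rcases zmod2_cases (c i) with h | h <;> rcases zmod2_cases (p (σ i)) with h' | h' <;>
    rw [h, h'] <;> decide

lemma bad_count {k : ℕ} (hι : Fintype.card κ = 32 * k) (c : ι → ZMod 2)
    (p : κ → ZMod 2) (hc : 8 * k ≤ wt c) (hc' : wt c ≤ 24 * k) (hp : 8 * k ≤ wt p)
    (hp' : wt p ≤ 24 * k) :
    2 ^ k * (Finset.univ.filter fun σ : ι ≃ κ => wt (fun i => c i + p (σ i)) < 8 * k).card
      ≤ (32 * k + 1) * Fintype.card (ι ≃ κ) := by
  set A : Finset ι := Finset.univ.filter fun i => c i = 1 with hA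
  set B : Finset κ := Finset.univ.filter fun x => p x = 1 with hB
  have hAc : A.card = wt c := rfl
  have hBc : B.card = wt p := rfl
  let SS : ℕ → Finset (Finset κ) := fun x =>
    (Finset.powersetCard A.card (Finset.univ : Finset κ)).filter fun S => (S ∩ B).card = x
  let XX : Finset ℕ := (Finset.range (A.card + 1)).filter fun x => A.card + B.card < 2 * x + 8 * k
  have hsub : (Finset.univ.filter fun σ : ι ≃ κ => wt (fun i => c i + p (σ i)) < 8 * k)
      ⊆ XX.biUnion fun x => Finset.univ.filter fun σ : ι ≃ κ => A.map σ.toEmbedding ∈ SS x := by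
    intro σ hσ
    simp only [Finset.mem_filter, Finset.mem_univ, true_and] at hσ
    have hid : wt (fun i => c i + p (σ i)) + 2 * (A.map σ.toEmbedding ∩ B).card = wt c + wt p :=
      wt_identity c p σ
    rw [Finset.mem_biUnion]
    refine ⟨(A.map σ.toEmbedding ∩ B).card, ?_, ?_⟩
    · simp only [XX, Finset.mem_filter, Finset.mem_range]
      constructor
      · have : (A.map σ.toEmbedding ∩ B).card ≤ (A.map σ.toEmbedding).card :=
          Finset.card_le_card Finset.inter_subset_left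
        rw [Finset.card_map] at this
        omega
      · rw [hAc, hBc]
        omega
    · simp [SS, Finset.mem_powersetCard]
  have hx : ∀ x ∈ XX, 2 ^ k * (Finset.univ.filter fun σ : ι ≃ κ =>
      A.map σ.toEmbedding ∈ SS x).card ≤ Fintype.card (ι ≃ κ) := by
    intro x hx
    simp only [XX, Finset.mem_filter, Finset.mem_range] at hx
    have h1 := count_sets (κ := κ) A (SS x) (by
      intro S hS
      simp only [SS, Finset.mem_filter, Finset.mem_powersetCard] at hS
      exact hS.1.2)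
    have h2 : (SS x).card ≤ B.card.choose x * (Fintype.card κ - B.card).choose (A.card - x) :=
      card_inter_sets B A.card x
    have h3 := g_bound (n := Fintype.card κ) (k := k) (a := A.card) (b := B.card) (x := x) hι
      (by omega) (by omega) (by omega) (by omega) (by omega) hx.2
    have h4 : 0 < (Fintype.card κ).choose A.card := Nat.choose_pos (by rw [hι]; omega)
    refine Nat.le_of_mul_le_mul_right ?_ h4
    calc 2 ^ k * (Finset.univ.filter fun σ : ι ≃ κ => A.map σ.toEmbedding ∈ SS x).card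
          * (Fintype.card κ).choose A.card
        = 2 ^ k * ((Finset.univ.filter fun σ : ι ≃ κ => A.map σ.toEmbedding ∈ SS x).card
          * (Fintype.card κ).choose A.card) := by ring
      _ = 2 ^ k * ((SS x).card * Fintype.card (ι ≃ κ)) := by rw [h1]
      _ ≤ 2 ^ k * ((B.card.choose x * (Fintype.card κ - B.card).choose (A.card - x))
          * Fintype.card (ι ≃ κ)) := by gcongr
      _ = (2 ^ k * (B.card.choose x * (Fintype.card κ - B.card).choose (A.card - x)))
          * Fintype.card (ι ≃ κ) := by ring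
      _ ≤ (Fintype.card κ).choose A.card * Fintype.card (ι ≃ κ) := by gcongr
      _ = _ := by ring
  calc 2 ^ k * (Finset.univ.filter fun σ : ι ≃ κ => wt (fun i => c i + p (σ i)) < 8 * k).card
      ≤ 2 ^ k * ∑ x ∈ XX, (Finset.univ.filter fun σ : ι ≃ κ =>
          A.map σ.toEmbedding ∈ SS x).card := by
        gcongr
        exact (Finset.card_le_card hsub).trans Finset.card_biUnion_le
    _ = ∑ x ∈ XX, 2 ^ k * (Finset.univ.filter fun σ : ι ≃ κ =>
          A.map σ.toEmbedding ∈ SS x).card := by rw [Finset.mul_sum]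
    _ ≤ ∑ _x ∈ XX, Fintype.card (ι ≃ κ) := Finset.sum_le_sum hx
    _ = XX.card * Fintype.card (ι ≃ κ) := by simp
    _ ≤ (32 * k + 1) * Fintype.card (ι ≃ κ) := by
        gcongr
        have : XX.card ≤ (Finset.range (A.card + 1)).card := Finset.card_filter_le _ _
        rw [Finset.card_range] at this
        omega

end Bad

variable {m : ℕ} {ι : Type*} [Fintype ι] [DecidableEq ι]

/-- the copy of the code `PP m` on the index set `ι` given by the bijection `σ` -/
def PPc (σ : ι ≃ (Fin m → ZMod 2)) : Submodule (ZMod 2) (ι → ZMod 2) :=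
  (PP m).map (LinearMap.funLeft (ZMod 2) (ZMod 2) σ)

lemma mem_PPc {σ : ι ≃ (Fin m → ZMod 2)} {c : ι → ZMod 2} :
    c ∈ PPc σ ↔ ∃ p ∈ PP m, c = fun i => p (σ i) := by
  unfold PPc
  rw [Submodule.mem_map]
  constructor
  · rintro ⟨p, hp, rfl⟩
    exact ⟨p, hp, rfl⟩
  · rintro ⟨p, hp, rfl⟩
    exact ⟨p, hp, rfl⟩

/-- all words other than `0, 1` have weight between `n/4` and `3n/4` -/
def Good (k : ℕ) (C : Submodule (ZMod 2) (ι → ZMod 2)) : Prop :=
  ∀ c ∈ C, c ≠ 0 → c ≠ 1 → 8 * k ≤ wt c ∧ wt c ≤ 24 * k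

lemma one_add_ne {κ : Type*} {p : κ → ZMod 2} (h0 : p ≠ 0) (h1 : p ≠ 1) :
    (1 + p ≠ 0) ∧ (1 + p ≠ 1) := by
  constructor
  · intro h
    apply h1
    exact ((add_eq_zero_iff_eq' _ _).1 h).symm
  · intro h
    apply h0
    simpa using h

lemma wt_one_add {κ : Type*} [Fintype κ] (p : κ → ZMod 2) :
    wt p + wt (1 + p) = Fintype.card κ := by
  have := wt_compl p
  rw [← this]
  congr 2
  funext i
  simp [add_comm]

lemma PP_good {k : ℕ} (hm : 2 ≤ m) (hk : 2 ^ m = 32 * k) : Good k (PP m) := by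
  intro p hp h0 h1
  have e1 := PP_weight hp h0 h1
  have hp' : 1 + p ∈ PP m := add_mem (one_mem_PP hm) hp
  have e2 := PP_weight hp' (one_add_ne h0 h1).1 (one_add_ne h0 h1).2
  have e3 := wt_one_add p
  have e4 : Fintype.card (Fin m → ZMod 2) = 2 ^ m := by simp [Fintype.card_pi, ZMod.card]
  omega

lemma exists_good_equiv {k : ℕ} (hm : 2 ≤ m) (hk : 2 ^ m = 32 * k)
    (hι : Fintype.card ι = 32 * k) (C : Submodule (ZMod 2) (ι → ZMod 2)) (hC : Good k C)
    (hcard : Nat.card C * Nat.card (PP m) * (32 * k + 1) < 2 ^ k) :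
    ∃ σ : ι ≃ (Fin m → ZMod 2), ∀ c ∈ C, c ≠ 0 → c ≠ 1 → ∀ p ∈ PP m, p ≠ 0 → p ≠ 1 →
      8 * k ≤ wt (fun i => c i + p (σ i)) ∧ wt (fun i => c i + p (σ i)) ≤ 24 * k := by
  classical
  have hV : Fintype.card (Fin m → ZMod 2) = 32 * k := by
    rw [← hk]; simp [Fintype.card_pi, ZMod.card]
  have hpos : 0 < Fintype.card (ι ≃ (Fin m → ZMod 2)) := by
    rw [Fintype.card_pos_iff]
    exact ⟨Fintype.equivOfCardEq (hι.trans hV.symm)⟩
  let CC : Finset (ι → ZMod 2) := Finset.univ.filter fun c => c ∈ C ∧ c ≠ 0 ∧ c ≠ 1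
  let QQ : Finset ((Fin m → ZMod 2) → ZMod 2) :=
    Finset.univ.filter fun p => p ∈ PP m ∧ p ≠ 0 ∧ p ≠ 1
  have hCC : CC.card ≤ Nat.card C := by
    have : Nat.card C = (Finset.univ.filter fun c => c ∈ C).card := by
      rw [Nat.card_eq_fintype_card, Fintype.card_subtype]
    rw [this]
    refine Finset.card_le_card fun c hc => ?_
    simp only [CC, Finset.mem_filter, Finset.mem_univ, true_and] at hc ⊢
    exact hc.1
  have hQQ : QQ.card ≤ Nat.card (PP m) := by
    have : Nat.card (PP m) = (Finset.univ.filter fun c => c ∈ PP m).card := by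
      rw [Nat.card_eq_fintype_card, Fintype.card_subtype]
    rw [this]
    refine Finset.card_le_card fun c hc => ?_
    simp only [QQ, Finset.mem_filter, Finset.mem_univ, true_and] at hc ⊢
    exact hc.1
  let bad : Finset (ι ≃ (Fin m → ZMod 2)) := (CC ×ˢ QQ).biUnion fun cp =>
    Finset.univ.filter fun σ => wt (fun i => cp.1 i + cp.2 (σ i)) < 8 * k
  have hbad : 2 ^ k * bad.card < 2 ^ k * Fintype.card (ι ≃ (Fin m → ZMod 2)) := by
    calc 2 ^ k * bad.card ≤ 2 ^ k * ∑ cp ∈ CC ×ˢ QQ, (Finset.univ.filter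
          fun σ : ι ≃ (Fin m → ZMod 2) => wt (fun i => cp.1 i + cp.2 (σ i)) < 8 * k).card := by
          gcongr
          exact Finset.card_biUnion_le
      _ = ∑ cp ∈ CC ×ˢ QQ, 2 ^ k * (Finset.univ.filter
          fun σ : ι ≃ (Fin m → ZMod 2) => wt (fun i => cp.1 i + cp.2 (σ i)) < 8 * k).card := by
          rw [Finset.mul_sum]
      _ ≤ ∑ _cp ∈ CC ×ˢ QQ, (32 * k + 1) * Fintype.card (ι ≃ (Fin m → ZMod 2)) := by
          refine Finset.sum_le_sum fun cp hcp => ?_
          simp only [CC, QQ, Finset.mem_product, Finset.mem_filter, Finset.mem_univ,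
            true_and] at hcp
          have h1 := hC cp.1 hcp.1.1 hcp.1.2.1 hcp.1.2.2
          have h2 := PP_good hm hk cp.2 hcp.2.1 hcp.2.2.1 hcp.2.2.2
          exact bad_count hV cp.1 cp.2 h1.1 h1.2 h2.1 h2.2
      _ = (CC.card * QQ.card * (32 * k + 1)) * Fintype.card (ι ≃ (Fin m → ZMod 2)) := by
          simp [Finset.card_product]; ring
      _ ≤ (Nat.card C * Nat.card (PP m) * (32 * k + 1)) *
            Fintype.card (ι ≃ (Fin m → ZMod 2)) := by gcongr
      _ < 2 ^ k * Fintype.card (ι ≃ (Fin m → ZMod 2)) := by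
          exact Nat.mul_lt_mul_of_pos_right hcard hpos
  have hlt : bad.card < Fintype.card (ι ≃ (Fin m → ZMod 2)) := lt_of_mul_lt_mul_left hbad
    (Nat.zero_le _)
  obtain ⟨σ, hσ⟩ : ∃ σ, σ ∉ bad := by
    by_contra hcon
    push Not at hcon
    have : bad = Finset.univ := Finset.eq_univ_iff_forall.2 hcon
    rw [this, Finset.card_univ] at hlt
    exact lt_irrefl _ hlt
  have hlow : ∀ c ∈ C, c ≠ 0 → c ≠ 1 → ∀ p ∈ PP m, p ≠ 0 → p ≠ 1 →
      8 * k ≤ wt (fun i => c i + p (σ i)) := by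
    intro c hc h0 h1 p hp hp0 hp1
    by_contra hcon
    push Not at hcon
    apply hσ
    simp only [bad, CC, QQ, Finset.mem_biUnion, Finset.mem_product, Finset.mem_filter,
      Finset.mem_univ, true_and]
    exact ⟨(c, p), ⟨⟨hc, h0, h1⟩, ⟨hp, hp0, hp1⟩⟩, hcon⟩
  refine ⟨σ, fun c hc h0 h1 p hp hp0 hp1 => ⟨hlow c hc h0 h1 p hp hp0 hp1, ?_⟩⟩
  have h2 := hlow c hc h0 h1 (1 + p) (add_mem (one_mem_PP hm) hp) (one_add_ne hp0 hp1).1
    (one_add_ne hp0 hp1).2
  have h3 := wt_one_add (fun i => c i + p (σ i))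
  have h4 : (1 + fun i => c i + p (σ i)) = fun i => c i + (1 + p) (σ i) := by
    funext i
    simp only [Pi.add_apply, Pi.one_apply]
    ring
  rw [h4] at h3
  omega

/-- A code which is generated by copies of `PP m`. -/
def IsGen (m : ℕ) (C : Submodule (ZMod 2) (ι → ZMod 2)) : Prop :=
  ∃ Sg : Set (ι ≃ (Fin m → ZMod 2)), Sg.Nonempty ∧ C = ⨆ σ ∈ Sg, PPc σ

lemma IsGen.one_mem {C : Submodule (ZMod 2) (ι → ZMod 2)} (hm : 2 ≤ m) (h : IsGen m C) :
    (1 : ι → ZMod 2) ∈ C := by
  obtain ⟨Sg, ⟨σ, hσ⟩, rfl⟩ := h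
  have h1 : PPc σ ≤ ⨆ σ ∈ Sg, PPc σ := le_iSup₂_of_le σ hσ le_rfl
  exact h1 (mem_PPc.2 ⟨1, one_mem_PP hm, rfl⟩)

theorem extend_code {k : ℕ} (hm : 2 ≤ m) (hk : 2 ^ m = 32 * k)
    (hι : Fintype.card ι = 32 * k) (C : Submodule (ZMod 2) (ι → ZMod 2)) (hC : Good k C)
    (hG : IsGen m C) (hcard : Nat.card C * Nat.card (PP m) * (32 * k + 1) < 2 ^ k)
    (hP : ∃ p ∈ PP m, p ≠ 0 ∧ p ≠ 1) :
    ∃ C' : Submodule (ZMod 2) (ι → ZMod 2), Good k C' ∧ IsGen m C' ∧ C < C' := by
  classical
  obtain ⟨σ, hσ⟩ := exists_good_equiv hm hk hι C hC hcard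
  have h1C : (1 : ι → ZMod 2) ∈ C := hG.one_mem hm
  have hkpos : 0 < k := by
    rcases Nat.eq_zero_or_pos k with h | h
    · subst h
      have : 0 < 2 ^ m := by positivity
      omega
    · exact h
  refine ⟨C ⊔ PPc σ, ?_, ?_, ?_⟩
  · intro c' hc' h0 h1
    obtain ⟨c, hc, d, hd, rfl⟩ := Submodule.mem_sup.1 hc'
    obtain ⟨p, hp, rfl⟩ := mem_PPc.1 hd
    have hPg := PP_good hm hk
    have hwt : ∀ q : (Fin m → ZMod 2) → ZMod 2, wt (fun i => q (σ i)) = wt q :=
      fun q => wt_equiv q σ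
    by_cases hp0 : p = 0
    · subst hp0
      have e : (c + fun i => (0 : (Fin m → ZMod 2) → ZMod 2) (σ i)) = c := by
        funext i; simp
      rw [e] at h0 h1 ⊢
      exact hC c hc h0 h1
    by_cases hp1 : p = 1
    · subst hp1
      have e : (c + fun i => (1 : (Fin m → ZMod 2) → ZMod 2) (σ i)) = c + 1 := by
        funext i; simp
      rw [e] at h0 h1 ⊢
      exact hC _ (add_mem hc h1C) h0 h1
    by_cases hc0 : c = 0
    · subst hc0
      have e : ((0 : ι → ZMod 2) + fun i => p (σ i)) = fun i => p (σ i) := by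
        funext i; simp
      rw [e, hwt]
      exact hPg p hp hp0 hp1
    by_cases hc1 : c = 1
    · subst hc1
      have e : ((1 : ι → ZMod 2) + fun i => p (σ i)) = fun i => (1 + p) (σ i) := by
        funext i; simp
      rw [e, hwt]
      exact hPg _ (add_mem (one_mem_PP hm) hp) (one_add_ne hp0 hp1).1 (one_add_ne hp0 hp1).2
    · exact hσ c hc hc0 hc1 p hp hp0 hp1
  · obtain ⟨Sg, hne, rfl⟩ := hG
    refine ⟨insert σ Sg, ⟨σ, Set.mem_insert _ _⟩, ?_⟩
    rw [iSup_insert, sup_comm]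
  · refine lt_of_le_of_ne le_sup_left fun heq => ?_
    obtain ⟨p, hp, hp0, hp1⟩ := hP
    have hmem : (fun i => p (σ i)) ∈ C := by
      rw [heq]
      exact (le_sup_right : PPc σ ≤ C ⊔ PPc σ) (mem_PPc.2 ⟨p, hp, rfl⟩)
    have hne0 : (fun i => p (σ i)) ≠ 0 := by
      intro h
      apply hp0
      funext x
      have := congrFun h (σ.symm x)
      simpa using this
    have hne1 : (fun i => p (σ i)) ≠ 1 := by
      intro h
      apply hp1
      funext x
      have := congrFun h (σ.symm x)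
      simpa using this
    have h2 := (hσ _ hmem hne0 hne1 p hp hp0 hp1).1
    have h3 : wt (fun i => p (σ i) + p (σ i)) = 0 := by
      unfold wt
      rw [Finset.card_eq_zero, Finset.filter_eq_empty_iff]
      intro i _
      have : p (σ i) + p (σ i) = 0 := zmod2_add_self _
      simp only [this]
      decide
    omega

lemma exists_nontrivial (hm : 2 ≤ m) : ∃ p ∈ PP m, p ≠ 0 ∧ p ≠ 1 := by
  set α : Fin m → ZMod 2 := Pi.single ⟨0, by omega⟩ 1 with hα
  set β : Fin m → ZMod 2 := Pi.single ⟨1, by omega⟩ 1 with hβ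
  have hα0 : α ≠ 0 := by
    intro h
    have := congrFun h ⟨0, by omega⟩
    simp [hα] at this
  have hβ0 : β ≠ 0 := by
    intro h
    have := congrFun h ⟨1, by omega⟩
    simp [hβ] at this
  have hαβ : α ≠ β := by
    intro h
    have := congrFun h ⟨0, by omega⟩
    simp [hα, hβ] at this
  refine ⟨fl α 0 β 0, Submodule.subset_span ⟨α, 0, β, 0, hα0, hβ0, hαβ, rfl⟩, ?_, ?_⟩
  · intro h
    have := congrFun h (α + β)
    simp [fl, hα, hβ, dotProduct_add] at this
  · intro h
    have := congrFun h 0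
    simp [fl] at this

theorem exists_large_code {k : ℕ} (hm : 2 ≤ m) (hk : 2 ^ m = 32 * k)
    (hι : Fintype.card ι = 32 * k) :
    ∃ C : Submodule (ZMod 2) (ι → ZMod 2), Good k C ∧ IsGen m C ∧
      2 ^ k ≤ Nat.card C * Nat.card (PP m) * (32 * k + 1) := by
  have hV : Fintype.card (Fin m → ZMod 2) = 32 * k := by
    rw [← hk]; simp [Fintype.card_pi, ZMod.card]
  let σ₀ : ι ≃ (Fin m → ZMod 2) := Fintype.equivOfCardEq (hι.trans hV.symm)
  obtain ⟨C, ⟨hC, hG⟩, hmax⟩ := WellFounded.has_min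
    (wellFounded_gt : WellFounded ((· > ·) : Submodule (ZMod 2) (ι → ZMod 2) → _ → Prop))
    {C | Good k C ∧ IsGen m C} ⟨PPc σ₀, by
      intro c hc h0 h1
      obtain ⟨p, hp, rfl⟩ := mem_PPc.1 hc
      rw [wt_equiv p σ₀]
      refine PP_good hm hk p hp ?_ ?_
      · rintro rfl
        exact h0 rfl
      · rintro rfl
        exact h1 rfl, {σ₀}, ⟨σ₀, rfl⟩, by simp⟩
  refine ⟨C, hC, hG, ?_⟩
  by_contra hcon
  push Not at hcon
  obtain ⟨C', h1, h2, h3⟩ := extend_code hm hk hι C hC hG hcon (exists_nontrivial hm)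
  exact hmax C' ⟨h1, h2⟩ h3

end Pool.Agent.Jammed
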