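import Pool.Agent.Jammed.Defs

/-!
# Infinitesimal jamming implies jamming
-/

namespace Pool.Agent.Jammed

open scoped BigOperators

variable {ι K Λ : Type*} [Fintype ι] [DecidableEq ι] [Fintype K] [Fintype Λ]

/-- The data of an infinitesimally jammed configuration. -/
structure InfJammed (x : K → EuclideanSpace ℝ ι) (s t : Λ → K) (κ : ℝ) : Prop where
  unit : ∀ k, ‖x k‖ = 1
  ne : ∀ l, s l ≠ t l
  contact : ∀ l, inner ℝ (x (s l)) (x (t l)) = 1 / 2
  stress : ∀ d : K → EuclideanSpace ℝ ι,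
    ∑ l, (inner ℝ (x (s l)) (d (t l)) + inner ℝ (d (s l)) (x (t l)))
      = κ * ∑ k, inner ℝ (x k) (d k)
  rigid : ∀ d : K → EuclideanSpace ℝ ι, (∀ k, inner ℝ (x k) (d k) = 0) →
    (∀ l, inner ℝ (x (s l)) (d (t l)) + inner ℝ (d (s l)) (x (t l)) = 0) →
    ∃ A : ι → ι → ℝ, (∀ i j, A j i = - A i j) ∧ ∀ k i, d k i = ∑ j, A i j * x k j

/-- the linearised constraints together with the gauge conditions -/
noncomputable def linMap (x : K → EuclideanSpace ℝ ι) (s t : Λ → K) :
    (K → EuclideanSpace ℝ ι) →ₗ[ℝ] (Λ → ℝ) × (K → ℝ) × (ι → ι → ℝ) where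
  toFun d := (fun l => inner ℝ (x (s l)) (d (t l)) + inner ℝ (d (s l)) (x (t l)),
    fun k => inner ℝ (x k) (d k),
    fun i j => ∑ k, (d k i * x k j - d k j * x k i))
  map_add' d e := by
    ext
    · simp [inner_add_right, inner_add_left]; ring
    · simp [inner_add_right]
    · simp only [Pi.add_apply, PiLp.add_apply, Prod.snd_add, ← Finset.sum_add_distrib]
      exact Finset.sum_congr rfl fun _ _ => by ring
  map_smul' c d := by
    ext
    · simp [inner_smul_right, inner_smul_left]; ring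
    · simp [inner_smul_right]
    · simp only [Pi.smul_apply, PiLp.smul_apply, Prod.smul_snd, smul_eq_mul, RingHom.id_apply,
        Finset.mul_sum]
      exact Finset.sum_congr rfl fun _ _ => by ring

lemma norm_sq_eq_sum (v : EuclideanSpace ℝ ι) : ‖v‖ ^ 2 = ∑ i, v i * v i := by
  rw [EuclideanSpace.real_norm_sq_eq]
  exact Finset.sum_congr rfl fun _ _ => by ring

lemma linMap_ker (x : K → EuclideanSpace ℝ ι) (s t : Λ → K) (κ : ℝ) (h : InfJammed x s t κ) :
    (linMap x s t).ker = ⊥ := by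
  rw [LinearMap.ker_eq_bot']
  intro d hd
  have h1 : ∀ l, inner ℝ (x (s l)) (d (t l)) + inner ℝ (d (s l)) (x (t l)) = 0 := fun l => by
    have := congrArg (fun z => z.1 l) hd
    simpa [linMap] using this
  have h2 : ∀ k, inner ℝ (x k) (d k) = 0 := fun k => by
    have := congrArg (fun z => z.2.1 k) hd
    simpa [linMap] using this
  have h3 : ∀ i j, ∑ k, (d k i * x k j - d k j * x k i) = 0 := fun i j => by
    have := congrArg (fun z => z.2.2 i j) hd
    simpa [linMap] using this
  obtain ⟨A, hA, hd'⟩ := h.rigid d h2 h1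
  have hsum : ∑ k, ‖d k‖ ^ 2 = 0 := by
    have e1 : ∑ k, ‖d k‖ ^ 2 = ∑ i, ∑ j, A i j * ∑ k, d k i * x k j := by
      simp_rw [norm_sq_eq_sum]
      rw [Finset.sum_comm]
      refine Finset.sum_congr rfl fun i _ => ?_
      simp_rw [Finset.mul_sum]
      rw [Finset.sum_comm]
      refine Finset.sum_congr rfl fun k _ => ?_
      nth_rw 2 [hd' k i]
      rw [Finset.mul_sum]
      exact Finset.sum_congr rfl fun j _ => by ring
    have e2 : ∑ i, ∑ j, A i j * ∑ k, d k i * x k j = - ∑ i, ∑ j, A i j * ∑ k, d k i * x k j := by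
      conv_lhs => rw [Finset.sum_comm]
      rw [← Finset.sum_neg_distrib]
      refine Finset.sum_congr rfl fun i _ => ?_
      rw [← Finset.sum_neg_distrib]
      refine Finset.sum_congr rfl fun j _ => ?_
      have h3' := h3 i j
      rw [Finset.sum_sub_distrib] at h3'
      rw [hA i j, show ∑ k, d k j * x k i = ∑ k, d k i * x k j by linarith]
      ring
    rw [e1]
    linarith
  have h0 : ∀ k ∈ Finset.univ, ‖d k‖ ^ 2 = 0 :=
    (Finset.sum_eq_zero_iff_of_nonneg fun _ _ => sq_nonneg _).1 hsum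
  funext k
  have := h0 k (Finset.mem_univ _)
  simpa using this

theorem local_rigid (x : K → EuclideanSpace ℝ ι) (s t : Λ → K) (κ : ℝ)
    (h : InfJammed x s t κ) : ∃ ε > 0, ∀ d : K → EuclideanSpace ℝ ι, (∀ k, ‖x k + d k‖ = 1) →
      (∀ l, inner ℝ (x (s l) + d (s l)) (x (t l) + d (t l)) ≤ 1 / 2) →
      (∀ i j, ∑ k, (d k i * x k j - d k j * x k i) = 0) → (∀ k, ‖d k‖ < ε) → d = 0 := by
  classical
  obtain ⟨C, hC0, hC⟩ := LinearMap.exists_antilipschitzWith (linMap x s t)
    (linMap_ker x s t κ h)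
  set M : ℝ := |κ| * Fintype.card K + Fintype.card Λ + 1 with hM
  have hMpos : 0 < M := by positivity
  have hMnn : 0 ≤ |κ| * Fintype.card K + Fintype.card Λ := by positivity
  refine ⟨1 / (C * M + 1), by positivity, fun d hu hc hg hε => ?_⟩
  set δ : ℝ := ‖d‖ with hδ
  have hδ0 : 0 ≤ δ := norm_nonneg _
  have hdk : ∀ k, ‖d k‖ ≤ δ := fun k => norm_le_pi_norm d k
  -- second component
  have h2 : ∀ k, inner ℝ (x k) (d k) = - (‖d k‖ ^ 2) / 2 := by
    intro k
    have e := hu k
    have e' : ‖x k + d k‖ ^ 2 = 1 := by rw [e]; norm_num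
    rw [norm_add_sq_real, h.unit k] at e'
    linarith
  have h2' : ∀ k, |inner ℝ (x k) (d k)| ≤ δ ^ 2 := by
    intro k
    rw [h2 k, neg_div, abs_neg, abs_of_nonneg (by positivity)]
    have := pow_le_pow_left₀ (norm_nonneg _) (hdk k) 2
    nlinarith [sq_nonneg ‖d k‖]
  -- first component
  set a : Λ → ℝ := fun l => inner ℝ (x (s l)) (d (t l)) + inner ℝ (d (s l)) (x (t l)) with ha
  have h1up : ∀ l, a l ≤ δ ^ 2 := by
    intro l
    have e := hc l
    rw [inner_add_left, inner_add_right, inner_add_right, h.contact l] at e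
    have e2 : |inner ℝ (d (s l)) (d (t l))| ≤ δ ^ 2 := by
      refine (abs_real_inner_le_norm _ _).trans ?_
      rw [pow_two]
      exact mul_le_mul (hdk _) (hdk _) (norm_nonneg _) hδ0
    have e3 := (abs_le.1 e2).1
    simp only [ha]
    linarith
  have hsum : ∑ l, a l = κ * ∑ k, inner ℝ (x k) (d k) := h.stress d
  have hsumlow : - (|κ| * Fintype.card K * δ ^ 2) ≤ ∑ l, a l := by
    rw [hsum]
    have e1 : |κ * ∑ k, inner ℝ (x k) (d k)| ≤ |κ| * (Fintype.card K * δ ^ 2) := by
      rw [abs_mul]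
      refine mul_le_mul_of_nonneg_left ?_ (abs_nonneg _)
      refine (Finset.abs_sum_le_sum_abs _ _).trans ?_
      refine (Finset.sum_le_sum fun k _ => h2' k).trans ?_
      simp
    have := (abs_le.1 e1).1
    linarith
  have h1low : ∀ l, - (M * δ ^ 2) ≤ a l := by
    intro l
    have e1 : ∑ l' ∈ Finset.univ.erase l, a l' ≤ Fintype.card Λ * δ ^ 2 := by
      refine (Finset.sum_le_sum fun l' _ => h1up l').trans ?_
      rw [Finset.sum_const, nsmul_eq_mul]
      refine mul_le_mul_of_nonneg_right ?_ (by positivity)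
      exact_mod_cast (Finset.card_le_univ _)
    have e2 := Finset.add_sum_erase Finset.univ a (Finset.mem_univ l)
    have : 0 ≤ δ ^ 2 := by positivity
    rw [hM]
    nlinarith
  have h1abs : ∀ l, |a l| ≤ M * δ ^ 2 := by
    intro l
    rw [abs_le]
    refine ⟨h1low l, (h1up l).trans ?_⟩
    have : 0 ≤ δ ^ 2 := by positivity
    rw [hM]
    nlinarith
  have hL : ‖linMap x s t d‖ ≤ M * δ ^ 2 := by
    have hpos : 0 ≤ M * δ ^ 2 := by positivity
    refine norm_prod_le_iff.2 ⟨?_, norm_prod_le_iff.2 ⟨?_, ?_⟩⟩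
    · exact (pi_norm_le_iff_of_nonneg hpos).2 fun l => by
        simpa [linMap] using h1abs l
    · refine (pi_norm_le_iff_of_nonneg hpos).2 fun k => ?_
      have : ‖inner ℝ (x k) (d k)‖ ≤ M * δ ^ 2 := by
        rw [Real.norm_eq_abs]
        refine (h2' k).trans ?_
        have : 0 ≤ δ ^ 2 := by positivity
        rw [hM]
        nlinarith
      simpa [linMap] using this
    · refine (pi_norm_le_iff_of_nonneg hpos).2 fun i =>
        (pi_norm_le_iff_of_nonneg hpos).2 fun j => ?_
      have : (linMap x s t d).2.2 i j = 0 := hg i j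
      rw [this]
      simpa using hpos
  have hfin : δ ≤ C * (M * δ ^ 2) := by
    have e := hC.le_mul_norm (map_zero _) d
    exact e.trans (mul_le_mul_of_nonneg_left hL C.2)
  by_contra hne
  have hδpos : 0 < δ := by
    rw [hδ]
    exact norm_pos_iff.2 hne
  have hlt : δ < 1 / (C * M + 1) := by
    rw [hδ]
    exact (pi_norm_lt_iff (by positivity)).2 hε
  have h4 : 1 ≤ C * M * δ := by
    have : δ * 1 ≤ δ * (C * M * δ) := by nlinarith
    exact le_of_mul_le_mul_left this hδpos
  have h5 : δ * (C * M + 1) < 1 := by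
    rw [lt_div_iff₀ (by positivity)] at hlt
    exact hlt
  nlinarith

end Pool.Agent.Jammed
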