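import Pool.Agent.Jammed.Rigid

/-!
# Exponentially large jammed kissing configurations
-/

namespace Pool.Agent.Jammed

open scoped BigOperators

universe u

section

variable {ι : Type u} [Fintype ι] [DecidableEq ι] [Nonempty ι]
variable {m k : ℕ} {C : Submodule (ZMod 2) (ι → ZMod 2)}

theorem code_infJammed [Fintype C] (hm : 3 ≤ m) (hk : 2 ^ m = 32 * k)
    (hι : Fintype.card ι = 32 * k) (Sg : Set (ι ≃ (Fin m → ZMod 2)))
    (hne : Sg.Nonempty) (hC : C = ⨆ σ ∈ Sg, PPc σ) :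
    ∃ (T : Type u) (_ : Fintype T) (s t : T × C → C) (κ : ℝ),
      InfJammed (fun c : C => vec (c : ι → ZMod 2)) s t κ := by
  classical
  have hkpos : 0 < k := by
    rcases Nat.eq_zero_or_pos k with h | h
    · subst h
      have : 0 < 2 ^ m := by positivity
      omega
    · exact h
  let T : Type u := Sg × (PairT m × (ZMod 2 × ZMod 2))
  have hmem : ∀ τ : T, (fun i => fl τ.2.1.1.1 τ.2.2.1 τ.2.1.1.2 τ.2.2.2 (τ.1.1 i)) ∈ C := by
    intro τ
    rw [hC]
    refine (le_iSup₂_of_le τ.1.1 τ.1.2 le_rfl : PPc τ.1.1 ≤ ⨆ σ ∈ Sg, PPc σ)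
      (mem_PPc.2 ⟨fl τ.2.1.1.1 τ.2.2.1 τ.2.1.1.2 τ.2.2.2, ?_, rfl⟩)
    exact Submodule.subset_span ⟨_, _, _, _, τ.2.1.2.1, τ.2.1.2.2.1, τ.2.1.2.2.2, rfl⟩
  let D : T → C := fun τ => ⟨_, hmem τ⟩
  have hwt : ∀ τ, wt (D τ : ι → ZMod 2) = 8 * k := by
    intro τ
    have h1 := wt_fl τ.2.1.2.1 τ.2.1.2.2.1 τ.2.1.2.2.2 τ.2.2.1 τ.2.2.2
    have h2 := wt_equiv (fl τ.2.1.1.1 τ.2.2.1 τ.2.1.1.2 τ.2.2.2) τ.1.1
    have h3 : wt (D τ : ι → ZMod 2) = wt (fl τ.2.1.1.1 τ.2.2.1 τ.2.1.1.2 τ.2.2.2) := h2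
    omega
  let M : ℝ := (Fintype.card Sg : ℝ) * (2 * (Fintype.card (PairT m) : ℝ))
  have hM : ∀ i, ∑ τ, chi ((D τ : ι → ZMod 2) i) = M := by
    intro i
    have : ∑ τ : T, chi ((D τ : ι → ZMod 2) i) = ∑ σ : Sg, ∑ φ : PairT m × (ZMod 2 × ZMod 2),
        chi (fl φ.1.1.1 φ.2.1 φ.1.1.2 φ.2.2 (σ.1 i)) := Fintype.sum_prod_type _
    rw [this]
    simp_rw [sum_chi_fl]
    simp [M]
  refine ⟨T, inferInstance, fun l => l.2, fun l => l.2 + D l.1, 2 * M, ?_, ?_, ?_, ?_, ?_⟩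
  · exact fun c => norm_vec _
  · intro l h
    have h0 : D l.1 = 0 := by
      have : l.2 + D l.1 = l.2 + 0 := by rw [add_zero]; exact h.symm
      exact add_left_cancel this
    have h1 := hwt l.1
    rw [h0] at h1
    have h2 : wt ((0 : C) : ι → ZMod 2) = 0 := by
      unfold wt
      simp
    omega
  · intro l
    rw [inner_vec]
    have h1 : (l.2 : ι → ZMod 2) + ((l.2 + D l.1 : C) : ι → ZMod 2) = (D l.1 : ι → ZMod 2) := by
      funext i
      have : ((l.2 + D l.1 : C) : ι → ZMod 2) i = (l.2 : ι → ZMod 2) i + (D l.1 : ι → ZMod 2) i :=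
        rfl
      rw [Pi.add_apply, this, ← add_assoc, zmod2_add_self, zero_add]
    rw [h1, hwt, hι]
    have : (k : ℝ) ≠ 0 := by exact_mod_cast hkpos.ne'
    push_cast
    field_simp
    ring
  · exact stress_general D M hM
  · intro d h1 h2
    refine code_rigid hm Sg hne hC d h1 ?_
    intro σ hσ α β a b hα hβ hαβ D' hD' c
    have := h2 (((⟨σ, hσ⟩, (⟨(α, β), hα, hβ, hαβ⟩, (a, b))) : T), c)
    have e : D (⟨σ, hσ⟩, (⟨(α, β), hα, hβ, hαβ⟩, (a, b))) = D' := by
      apply Subtype.ext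
      rw [hD']
    simp only [e] at this
    exact this

lemma vec_injective : Function.Injective (vec : (ι → ZMod 2) → EuclideanSpace ℝ ι) := by
  intro c c' h
  funext i
  have h1 : vec c i = vec c' i := by rw [h]
  rw [vec_apply, vec_apply] at h1
  have hpos := sqrt_card_pos (ι := ι)
  have h2 : chi (c i) = chi (c' i) := by
    field_simp at h1
    exact h1
  have h3 : chi (c i + c' i) = 1 := by rw [chi_add, h2, chi_mul_self]
  have h4 := (chi_eq_one_iff _).1 h3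
  have h5 : c i + c' i + c' i = c' i := by rw [h4, zero_add]
  rwa [add_assoc, zmod2_add_self, add_zero] at h5

lemma inner_vec_le (hι : Fintype.card ι = 32 * k) (hC : Good k C) {c c' : ι → ZMod 2}
    (hc : c ∈ C) (hc' : c' ∈ C) (hne : c ≠ c') : inner ℝ (vec c) (vec c') ≤ 1 / 2 := by
  rw [inner_vec]
  have hcard : (0 : ℝ) < Fintype.card ι := by exact_mod_cast Fintype.card_pos
  have hwt : 8 * k ≤ wt (c + c') := by
    have h0 : c + c' ≠ 0 := fun h => hne ((add_eq_zero_iff_eq' _ _).1 h)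
    by_cases h1 : c + c' = 1
    · rw [h1]
      have : wt (1 : ι → ZMod 2) = Fintype.card ι := by
        unfold wt
        simp
      omega
    · exact (hC _ (add_mem hc hc') h0 h1).1
  have hwt' : (8 : ℝ) * k ≤ wt (c + c') := by exact_mod_cast hwt
  have hι' : (Fintype.card ι : ℝ) = 32 * k := by exact_mod_cast hι
  have : 1 / 2 ≤ 2 * (wt (c + c') : ℝ) / Fintype.card ι := by
    rw [div_le_div_iff₀ (by norm_num) hcard]
    linarith
  linarith

end

theorem poly_le_two_pow {m : ℕ} (hm : 14 ≤ m) : (m + 1) ^ 2 + (m + 1) ≤ 2 ^ (m - 6) := by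
  induction m, hm using Nat.le_induction with
  | base => norm_num
  | succ m hm ih =>
    have h1 : 2 ^ (m + 1 - 6) = 2 * 2 ^ (m - 6) := by
      rw [show m + 1 - 6 = (m - 6) + 1 by omega, pow_succ]
      ring
    rw [h1]
    nlinarith

/-- For every `m ≥ 14` there is a jammed kissing configuration in `ℝ^(2^m)` with at least
`2 ^ (2 ^ m / 64)` points. -/
theorem exists_jammed {m : ℕ} (hm : 14 ≤ m) :
    ∃ C : Finset (EuclideanSpace ℝ (Fin (2 ^ m))), IsKissing C ∧ IsJammed C ∧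
      2 ^ (2 ^ (m - 6)) ≤ C.card := by
  classical
  set k : ℕ := 2 ^ (m - 5) with hk'
  have hk : 2 ^ m = 32 * k := by
    rw [hk', show (32 : ℕ) = 2 ^ 5 by norm_num, ← pow_add]
    congr 1
    omega
  have hι : Fintype.card (Fin (2 ^ m)) = 32 * k := by rw [Fintype.card_fin, hk]
  have : Nonempty (Fin (2 ^ m)) := ⟨⟨0, by positivity⟩⟩
  obtain ⟨C, hC, ⟨Sg, hne, hCg⟩, hcard⟩ :=
    exists_large_code (m := m) (ι := Fin (2 ^ m)) (by omega) hk hι
  obtain ⟨T, _, s, t, κ, hJ⟩ := code_infJammed (C := C) (by omega) hk hι Sg hne hCg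
  let F : C → EuclideanSpace ℝ (Fin (2 ^ m)) := fun c => vec (c : Fin (2 ^ m) → ZMod 2)
  have hF : Function.Injective F := fun c c' h => Subtype.ext (vec_injective h)
  refine ⟨Finset.univ.image F, ⟨?_, ?_⟩, ?_, ?_⟩
  · intro x hx
    obtain ⟨c, -, rfl⟩ := Finset.mem_image.1 hx
    exact norm_vec _
  · intro x hx y hy hxy
    obtain ⟨c, -, rfl⟩ := Finset.mem_image.1 hx
    obtain ⟨c', -, rfl⟩ := Finset.mem_image.1 hy
    exact inner_vec_le hι hC c.2 c'.2 (fun h => hxy (by simp only [F]; rw [h]))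
  · intro γ g1 g2 g3 g4 r
    have hmemF : ∀ c : C, F c ∈ Finset.univ.image F := fun c =>
      Finset.mem_image_of_mem _ (Finset.mem_univ _)
    obtain ⟨A, hA⟩ := continuous_rigid (fun c : C => vec (c : Fin (2 ^ m) → ZMod 2)) s t κ hJ
      (fun c => γ ⟨F c, hmemF c⟩) (fun c => g1 _) (fun c => g2 _) (fun c r => g3 _ r)
      (fun c c' hcc r => g4 _ _ (by
        intro h
        apply hcc
        exact hF (congrArg Subtype.val h)) r) r
    refine ⟨A, ?_⟩
    rintro ⟨x, hx⟩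
    obtain ⟨c, -, rfl⟩ := Finset.mem_image.1 hx
    exact hA c
  · rw [Finset.card_image_of_injective _ hF, Finset.card_univ, ← Nat.card_eq_fintype_card]
    have h1 := card_PP m
    have h2 : 32 * k + 1 ≤ 2 ^ (m + 1) := by
      rw [← hk, pow_succ]
      have : 1 ≤ 2 ^ m := Nat.one_le_two_pow
      omega
    have h3 := poly_le_two_pow hm
    have h4 : 2 ^ (2 ^ (m - 6)) * (2 ^ ((m + 1) ^ 2) * 2 ^ (m + 1)) ≤ 2 ^ k := by
      rw [← pow_add, ← pow_add]
      apply Nat.pow_le_pow_right (by norm_num)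
      have : k = 2 ^ (m - 6) + 2 ^ (m - 6) := by
        rw [hk', show m - 5 = (m - 6) + 1 by omega, pow_succ]
        ring
      omega
    have h5 : 2 ^ k ≤ Nat.card C * (2 ^ ((m + 1) ^ 2) * 2 ^ (m + 1)) := by
      refine hcard.trans ?_
      rw [mul_assoc]
      gcongr
    exact Nat.le_of_mul_le_mul_right (h4.trans h5) (by positivity)

/-- There are exponentially large jammed kissing configurations. -/
theorem main : ∃ c : ℝ, 1 < c ∧ {n : ℕ | ∃ C : Finset (EuclideanSpace ℝ (Fin n)),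
    IsKissing C ∧ IsJammed C ∧ c ^ n ≤ (C.card : ℝ)}.Infinite := by
  refine ⟨(2 : ℝ) ^ ((1 : ℝ) / 64), Real.one_lt_rpow (by norm_num) (by norm_num), ?_⟩
  have hinj : Function.Injective fun j : ℕ => 2 ^ (j + 14) := by
    intro a b h
    have := Nat.pow_right_injective (le_refl 2) h
    omega
  refine Set.infinite_of_injective_forall_mem hinj fun j => ?_
  obtain ⟨C, h1, h2, h3⟩ := exists_jammed (m := j + 14) (by omega)
  refine ⟨C, h1, h2, ?_⟩
  rw [show j + 14 - 6 = j + 8 by omega] at h3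
  have e : ((2 : ℝ) ^ ((1 : ℝ) / 64)) ^ (2 ^ (j + 14)) = (2 : ℝ) ^ (2 ^ (j + 8)) := by
    rw [← Real.rpow_natCast, ← Real.rpow_mul (by norm_num), ← Real.rpow_natCast]
    congr 1
    push_cast
    rw [pow_add, pow_add]
    ring
  rw [e]
  exact_mod_cast h3

end Pool.Agent.Jammed
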