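import Mathlib

/-!
# Characters of the second order Reed-Muller code

The key lemma on functions annihilated by many codimension two flats.
-/

namespace Pool.Agent.Jammed

open scoped BigOperators

/-- the sign character of `ZMod 2` -/
noncomputable def chi (a : ZMod 2) : ℝ := if a = 0 then 1 else -1

lemma zmod2_cases (a : ZMod 2) : a = 0 ∨ a = 1 := by
  fin_cases a
  · left; rfl
  · right; rfl

@[simp] lemma chi_zero : chi 0 = 1 := by simp [chi]

@[simp] lemma chi_one : chi 1 = -1 := by simp [chi]

lemma chi_add (a b : ZMod 2) : chi (a + b) = chi a * chi b := by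
  rcases zmod2_cases a with rfl | rfl <;> rcases zmod2_cases b with rfl | rfl
  · simp
  · simp
  · simp
  · have : (1 : ZMod 2) + 1 = 0 := rfl
    rw [this]
    simp

lemma chi_mul_self (a : ZMod 2) : chi a * chi a = 1 := by
  rcases zmod2_cases a with rfl | rfl <;> simp

lemma chi_ne_zero (a : ZMod 2) : chi a ≠ 0 := by
  rcases zmod2_cases a with rfl | rfl <;> simp

lemma chi_sq (a : ZMod 2) : chi a ^ 2 = 1 := by rw [pow_two, chi_mul_self]

lemma zmod2_add_self (a : ZMod 2) : a + a = 0 := by
  rcases zmod2_cases a with rfl | rfl <;> rfl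

lemma zmod2_mul_self (a : ZMod 2) : a * a = a := by
  rcases zmod2_cases a with rfl | rfl <;> rfl

lemma chi_mul (a b : ZMod 2) : chi (a * b) = (1 + chi a + chi b - chi a * chi b) / 2 := by
  rcases zmod2_cases a with rfl | rfl <;> rcases zmod2_cases b with rfl | rfl <;>
    norm_num

lemma chi_eq_one_iff (a : ZMod 2) : chi a = 1 ↔ a = 0 := by
  rcases zmod2_cases a with rfl | rfl <;> norm_num

section Orth

variable {ι : Type*} [Fintype ι] [DecidableEq ι]

lemma sum_chi_dot (z : ι → ZMod 2) : ∑ β : ι → ZMod 2, chi (dotProduct β z)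
    = if z = 0 then (2 : ℝ) ^ Fintype.card ι else 0 := by
  split_ifs with hz
  · subst hz
    simp [Fintype.card_pi]
  · obtain ⟨i, hi⟩ : ∃ i, z i ≠ 0 := by
      by_contra h
      push Not at h
      exact hz (funext h)
    have hi1 : z i = 1 := (zmod2_cases (z i)).resolve_left hi
    have key : ∑ β : ι → ZMod 2, chi (dotProduct β z)
        = - ∑ β : ι → ZMod 2, chi (dotProduct β z) := by
      rw [← Finset.sum_neg_distrib]
      refine Fintype.sum_equiv (Equiv.addRight (Pi.single i (1 : ZMod 2))) _ _ fun β => ?_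
      simp only [Equiv.coe_addRight, add_dotProduct]
      rw [chi_add, single_dotProduct, hi1]
      simp
    linarith

end Orth

variable {m : ℕ}

/-- The product of two affine functions on `F₂^m`. -/
def fl (α : Fin m → ZMod 2) (a : ZMod 2) (β : Fin m → ZMod 2) (b : ZMod 2) :
    (Fin m → ZMod 2) → ZMod 2 :=
  fun x => (dotProduct α x + a) * (dotProduct β x + b)

lemma exists_beta3 : ∀ s α : Fin 3 → ZMod 2, ∃ β : Fin 3 → ZMod 2, β ≠ 0 ∧ β ≠ α ∧
    dotProduct β s = 0 := by
  decide

lemma exists_beta (hm : 3 ≤ m) (s α : Fin m → ZMod 2) : ∃ β : Fin m → ZMod 2, β ≠ 0 ∧ β ≠ α ∧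
    dotProduct β s = 0 := by
  obtain ⟨β, h0, hα, hs⟩ := exists_beta3 (fun i => s (Fin.castLE hm i))
    (fun i => α (Fin.castLE hm i))
  let β' : Fin m → ZMod 2 := fun i => if h : (i : ℕ) < 3 then β ⟨i, h⟩ else 0
  have hβ' : ∀ i : Fin 3, β' (Fin.castLE hm i) = β i := by
    intro i
    simp [β']
  refine ⟨β', ?_, ?_, ?_⟩
  · intro h
    apply h0
    funext i
    rw [← hβ' i, h]
    rfl
  · intro h
    apply hα
    funext i
    rw [← hβ' i, h]
  · rw [← hs]
    simp only [dotProduct]
    symm
    refine Finset.sum_of_injOn (Fin.castLE hm) ?_ ?_ ?_ ?_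
    · exact (Fin.castLE_injective hm).injOn
    · intro i _
      simp
    · intro i _ hi
      have : ¬ ((i : ℕ) < 3) := by
        intro h
        apply hi
        exact ⟨⟨i, h⟩, by simp, by ext; simp⟩
      simp [β', this]
    · intro i _
      rw [hβ']

end Pool.Agent.Jammed
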