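import Pool.Agent.Jammed.RM2

/-!
# Characters of the second order Reed-Muller code: the main lemma
-/

namespace Pool.Agent.Jammed

open scoped BigOperators

variable {m : ℕ}

/-- symmetric bilinear form attached to `t` -/
def BB (t : (Fin m → ZMod 2) → ZMod 2) (α β : Fin m → ZMod 2) : ZMod 2 :=
  ∑ x, t x * (dotProduct α x * dotProduct β x)

/-- linear form attached to `t` -/
def LL (t : (Fin m → ZMod 2) → ZMod 2) (α : Fin m → ZMod 2) : ZMod 2 :=
  ∑ x, t x * dotProduct α x

/-- total sum of `t` -/
def TT (t : (Fin m → ZMod 2) → ZMod 2) : ZMod 2 := ∑ x, t x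

lemma BB_comm (t : (Fin m → ZMod 2) → ZMod 2) (α β : Fin m → ZMod 2) :
    BB t α β = BB t β α := by
  unfold BB
  exact Finset.sum_congr rfl fun x _ => by ring

lemma BB_add_left (t : (Fin m → ZMod 2) → ZMod 2) (α α' β : Fin m → ZMod 2) :
    BB t (α + α') β = BB t α β + BB t α' β := by
  unfold BB
  rw [← Finset.sum_add_distrib]
  exact Finset.sum_congr rfl fun x _ => by rw [add_dotProduct]; ring

lemma BB_add_right (t : (Fin m → ZMod 2) → ZMod 2) (α β β' : Fin m → ZMod 2) :
    BB t α (β + β') = BB t α β + BB t α β' := by
  rw [BB_comm, BB_add_left, BB_comm t β, BB_comm t β']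

lemma BB_zero_left (t : (Fin m → ZMod 2) → ZMod 2) (β : Fin m → ZMod 2) :
    BB t 0 β = 0 := by
  simp [BB]

lemma LL_add (t : (Fin m → ZMod 2) → ZMod 2) (α β : Fin m → ZMod 2) :
    LL t (α + β) = LL t α + LL t β := by
  unfold LL
  rw [← Finset.sum_add_distrib]
  exact Finset.sum_congr rfl fun x _ => by rw [add_dotProduct]; ring

lemma BB_self (t : (Fin m → ZMod 2) → ZMod 2) (α : Fin m → ZMod 2) :
    BB t α α = LL t α := by
  unfold BB LL
  exact Finset.sum_congr rfl fun x _ => by rw [zmod2_mul_self]

lemma dot_fl (t : (Fin m → ZMod 2) → ZMod 2) (α : Fin m → ZMod 2) (a : ZMod 2)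
    (β : Fin m → ZMod 2) (b : ZMod 2) :
    ∑ x, t x * fl α a β b x = BB t α β + b * LL t α + a * LL t β + a * b * TT t := by
  unfold BB LL TT fl
  simp only [Finset.mul_sum, ← Finset.sum_add_distrib]
  exact Finset.sum_congr rfl fun x _ => by ring

/-- the vector representing `β ↦ BB t β γ` -/
def vB (t : (Fin m → ZMod 2) → ZMod 2) (γ : Fin m → ZMod 2) : Fin m → ZMod 2 :=
  ∑ x, (t x * dotProduct γ x) • x

/-- the vector representing `LL t` -/
def vL (t : (Fin m → ZMod 2) → ZMod 2) : Fin m → ZMod 2 := ∑ x, t x • x

lemma dot_vB (t : (Fin m → ZMod 2) → ZMod 2) (γ β : Fin m → ZMod 2) :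
    dotProduct β (vB t γ) = BB t β γ := by
  unfold vB BB
  rw [dotProduct_sum]
  exact Finset.sum_congr rfl fun x _ => by rw [dotProduct_smul, smul_eq_mul]; ring

lemma dot_vL (t : (Fin m → ZMod 2) → ZMod 2) (β : Fin m → ZMod 2) :
    dotProduct β (vL t) = LL t β := by
  unfold vL LL
  rw [dotProduct_sum]
  exact Finset.sum_congr rfl fun x _ => by rw [dotProduct_smul, smul_eq_mul]

theorem rm2_fourier (hm : 3 ≤ m) (t : (Fin m → ZMod 2) → ZMod 2) (f : (Fin m → ZMod 2) → ℝ)
    (hf0 : f 0 = 0)
    (H : ∀ α β : Fin m → ZMod 2, ∀ a b : ZMod 2, α ≠ 0 → β ≠ 0 → α ≠ β →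
      BB t α β + b * LL t α + a * LL t β + a * b * TT t = 0 →
      chi a * f α + chi b * f β = chi a * chi b * f (α + β)) :
    ∃ (r : ℝ) (i j : Fin m → ZMod 2),
      (∀ β, f β = r * (chi (dotProduct β i) - chi (dotProduct β j))) ∧
      (r = 0 ∨ ∀ α a β b, ∑ x, t x * fl α a β b x = fl α a β b i + fl α a β b j) := by
  have h11 : (1 : ZMod 2) + 1 = 0 := rfl
  rcases zmod2_cases (TT t) with hT | hT
  · by_cases hL : ∃ β₀, LL t β₀ = 1
    · -- the main case
      obtain ⟨β₀, hβ₀⟩ := hL
      have hne0 : ∀ β, LL t β = 1 → β ≠ 0 := by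
        rintro β hβ rfl
        rw [← dot_vL, zero_dotProduct] at hβ
        exact absurd hβ (by decide)
      have key : ∀ α β, LL t α = 0 → LL t β = 1 → f α = 0 ∧
          f (α + β) = chi (BB t α β) * f β := by
        intro α β hα hβ
        by_cases h0 : α = 0
        · subst h0
          rw [BB_zero_left]
          simp [hf0]
        · have hab : α ≠ β := by
            rintro rfl
            rw [hα] at hβ
            exact absurd hβ (by decide)
          have e0 := H α β (BB t α β) 0 h0 (hne0 β hβ) hab (by
            rw [hα, hβ, hT]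
            simp [zmod2_add_self])
          have e1 := H α β (BB t α β) 1 h0 (hne0 β hβ) hab (by
            rw [hα, hβ, hT]
            simp [zmod2_add_self])
          simp only [chi_zero, chi_one] at e0 e1
          have hc := chi_mul_self (BB t α β)
          have hcn := chi_ne_zero (BB t α β)
          constructor
          · have : chi (BB t α β) * f α = 0 := by linarith
            exact (mul_eq_zero.1 this).resolve_left hcn
          · have h3 : f β = chi (BB t α β) * f (α + β) := by linarith
            rw [h3, ← mul_assoc, hc, one_mul]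
      have keyf : ∀ β, LL t β = 0 → f β = 0 := fun β hβ => (key β β₀ hβ hβ₀).1
      have hLadd : ∀ β, LL t β = 1 → LL t (β + β₀) = 0 := by
        intro β hβ
        rw [LL_add, hβ, hβ₀, h11]
      have hback : ∀ β : Fin m → ZMod 2, β + β₀ + β₀ = β := by
        intro β
        rw [add_assoc]
        have : β₀ + β₀ = 0 := by
          funext i
          exact zmod2_add_self _
        rw [this, add_zero]
      have hB0 : BB t β₀ β₀ = 1 := by rw [BB_self, hβ₀]
      set j := vB t β₀ with hj
      set i := vB t β₀ + vL t with hi
      have hdj : ∀ β, dotProduct β j = BB t β β₀ := fun β => dot_vB t β₀ β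
      have hdi : ∀ β, dotProduct β i = BB t β β₀ + LL t β := fun β => by
        rw [hi, dotProduct_add, dot_vB, dot_vL]
      refine ⟨f β₀ / 2, i, j, ?_, ?_⟩
      · intro β
        rw [hdi, hdj]
        rcases zmod2_cases (LL t β) with hβ | hβ
        · rw [hβ, add_zero, sub_self, mul_zero]
          exact keyf β hβ
        · have e := (key (β + β₀) β₀ (hLadd β hβ) hβ₀).2
          rw [hback, BB_add_left, hB0] at e
          rw [e, hβ, chi_add, chi_one]
          ring
      · by_cases hr : f β₀ = 0
        · left
          rw [hr, zero_div]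
        · right
          have hK : ∀ α α', LL t α = 0 → LL t α' = 0 → BB t α' α = 0 := by
            intro α α' hα hα'
            have e1 := (key α' (α + β₀) hα' (by rw [LL_add, hα, hβ₀, zero_add])).2
            have e2 := (key α β₀ hα hβ₀).2
            have e3 := (key (α' + α) β₀ (by rw [LL_add, hα, hα', zero_add]) hβ₀).2
            rw [← add_assoc, e3, e2, BB_add_left, BB_add_right, chi_add, chi_add] at e1
            have hc1 := chi_ne_zero (BB t α β₀)
            have hc2 := chi_ne_zero (BB t α' β₀)
            rw [← chi_eq_one_iff]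
            have h4 : (chi (BB t α' β₀) * chi (BB t α β₀) * f β₀) * (chi (BB t α' α) - 1) = 0 := by
              linarith
            have h5 : chi (BB t α' β₀) * chi (BB t α β₀) * f β₀ ≠ 0 := by
              exact mul_ne_zero (mul_ne_zero hc2 hc1) hr
            have := (mul_eq_zero.1 h4).resolve_left h5
            linarith
          intro α a β b
          rw [dot_fl, hT]
          unfold fl
          rw [hdi, hdj, hdi, hdj]
          have main : BB t α β = (BB t α β₀ + LL t α) * LL t β + LL t α * (BB t β β₀ + LL t β)
              + LL t α * LL t β := by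
            rcases zmod2_cases (LL t α) with hα | hα <;> rcases zmod2_cases (LL t β) with hβ | hβ
            · rw [hα, hβ, hK β α hβ hα]
              simp
            · have e := hK (β + β₀) α (hLadd β hβ) hα
              rw [BB_add_right] at e
              rw [hα, hβ]
              have e' : BB t α β = BB t α β₀ := by
                have h6 : BB t α β + BB t α β₀ + BB t α β₀ = BB t α β₀ := by rw [e, zero_add]
                rwa [add_assoc, zmod2_add_self, add_zero] at h6
              rw [e']
              ring
            · have e := hK (α + β₀) β (hLadd α hα) hβ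
              rw [BB_add_right] at e
              rw [hα, hβ]
              have e' : BB t β α = BB t β β₀ := by
                have h6 : BB t β α + BB t β β₀ + BB t β β₀ = BB t β β₀ := by rw [e, zero_add]
                rwa [add_assoc, zmod2_add_self, add_zero] at h6
              rw [BB_comm t α β, e']
              ring
            · have e := hK (β + β₀) (α + β₀) (hLadd β hβ) (hLadd α hα)
              rw [BB_add_right, BB_add_left, BB_add_left, hB0, BB_comm t β₀ β] at e
              rw [hα, hβ]
              have h2 : (2 : ZMod 2) = 0 := rfl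
              linear_combination e - (BB t α β₀ + BB t β β₀ + 2) * h2
          rw [main]
          have h2 : (2 : ZMod 2) = 0 := rfl
          linear_combination (-(BB t α β₀ * BB t β β₀) - a * BB t β β₀ - b * BB t α β₀ - a * b
            + LL t α * LL t β) * h2
    · -- `LL = 0`
      push Not at hL
      have hL0 : ∀ β, LL t β = 0 := fun β => (zmod2_cases (LL t β)).resolve_right (hL β)
      have hf : ∀ α, f α = 0 := by
        intro α
        by_cases h0 : α = 0
        · rw [h0, hf0]
        · obtain ⟨β, hβ0, hβα, hβ⟩ := exists_beta hm (vB t α) α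
          rw [dot_vB, BB_comm] at hβ
          have e : ∀ a b, chi a * f α + chi b * f β = chi a * chi b * f (α + β) := fun a b =>
            H α β a b h0 hβ0 (Ne.symm hβα) (by rw [hβ, hL0, hL0, hT]; simp)
          have e1 := e 0 0
          have e2 := e 1 0
          have e3 := e 0 1
          simp only [chi_zero, chi_one] at e1 e2 e3
          linarith
      exact ⟨0, 0, 0, fun β => by rw [hf]; ring, Or.inl rfl⟩
  · have hf : ∀ α, f α = 0 := by
      intro α
      by_cases h0 : α = 0
      · rw [h0, hf0]
      · obtain ⟨β, hβ0, hβα, hβ⟩ := exists_beta hm (vB t α + LL t α • vL t) α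
        rw [dotProduct_add, dot_vB, dotProduct_smul, dot_vL, BB_comm, smul_eq_mul] at hβ
        have hB : BB t α β = LL t α * LL t β := by
          have h6 : BB t α β + LL t α * LL t β + LL t α * LL t β = LL t α * LL t β := by
            rw [hβ, zero_add]
          rwa [add_assoc, zmod2_add_self, add_zero] at h6
        have e : ∀ a b, (a + LL t α) * (b + LL t β) = 0 →
            chi a * f α + chi b * f β = chi a * chi b * f (α + β) := fun a b hab =>
          H α β a b h0 hβ0 (Ne.symm hβα) (by
            rw [hB, hT]
            linear_combination hab)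
        have e1 := e (LL t α) (LL t β) (by rw [zmod2_add_self, zero_mul])
        have e2 := e (LL t α + 1) (LL t β) (by rw [zmod2_add_self (LL t β), mul_zero])
        have e3 := e (LL t α) (LL t β + 1) (by rw [zmod2_add_self, zero_mul])
        simp only [chi_add, chi_one] at e2 e3
        have hc := chi_ne_zero (LL t α)
        have : chi (LL t α) * f α = 0 := by linarith
        exact (mul_eq_zero.1 this).resolve_left hc
    exact ⟨0, 0, 0, fun β => by rw [hf]; ring, Or.inl rfl⟩

lemma add_eq_zero_iff_eq' {ι : Type*} (x y : ι → ZMod 2) : x + y = 0 ↔ x = y := by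
  constructor
  · intro h
    funext i
    have h1 : x i + y i = 0 := congrFun h i
    have h2 : x i + y i + y i = y i := by rw [h1, zero_add]
    rwa [add_assoc, zmod2_add_self, add_zero] at h2
  · rintro rfl
    funext i
    exact zmod2_add_self _

lemma fourier_inv (u : (Fin m → ZMod 2) → ℝ) (r : ℝ) (i j : Fin m → ZMod 2)
    (h : ∀ β, ∑ x, chi (dotProduct β x) * u x
      = r * (chi (dotProduct β i) - chi (dotProduct β j))) (x : Fin m → ZMod 2) :
    u x = r * ((if x = i then 1 else 0) - (if x = j then 1 else 0)) := by
  have h1 : ∑ β : Fin m → ZMod 2, chi (dotProduct β x) * ∑ y, chi (dotProduct β y) * u y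
      = (2 : ℝ) ^ m * u x := by
    simp_rw [Finset.mul_sum]
    rw [Finset.sum_comm]
    have e : ∀ y, ∑ β : Fin m → ZMod 2, chi (dotProduct β x) * (chi (dotProduct β y) * u y)
        = if x = y then (2 : ℝ) ^ m * u y else 0 := by
      intro y
      have : ∀ β : Fin m → ZMod 2, chi (dotProduct β x) * (chi (dotProduct β y) * u y)
          = chi (dotProduct β (x + y)) * u y := by
        intro β
        rw [dotProduct_add, chi_add]
        ring
      simp_rw [this]
      rw [← Finset.sum_mul, sum_chi_dot]
      simp only [add_eq_zero_iff_eq', Fintype.card_fin]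
      split_ifs <;> ring
    simp_rw [e]
    simp
  have h2 : ∑ β : Fin m → ZMod 2, chi (dotProduct β x) * ∑ y, chi (dotProduct β y) * u y
      = (2 : ℝ) ^ m * (r * ((if x = i then 1 else 0) - (if x = j then 1 else 0))) := by
    simp_rw [h]
    have : ∀ β : Fin m → ZMod 2, chi (dotProduct β x) *
        (r * (chi (dotProduct β i) - chi (dotProduct β j)))
        = r * (chi (dotProduct β (x + i)) - chi (dotProduct β (x + j))) := by
      intro β
      rw [dotProduct_add, dotProduct_add, chi_add, chi_add]
      ring
    simp_rw [this]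
    rw [← Finset.mul_sum, Finset.sum_sub_distrib, sum_chi_dot, sum_chi_dot]
    simp only [add_eq_zero_iff_eq', Fintype.card_fin]
    split_ifs <;> ring
  have h3 : (2 : ℝ) ^ m ≠ 0 := by positivity
  exact mul_left_cancel₀ h3 (h1.symm.trans h2)

/-- The main lemma: a function `u` of mean zero which is orthogonal to all the flats `D` with
`t · D = 0` is a multiple of `e_i - e_j`, and if it is nonzero then `t` and `e_i + e_j` agree on
all flats. -/
theorem rm2_main (hm : 3 ≤ m) (t : (Fin m → ZMod 2) → ZMod 2) (u : (Fin m → ZMod 2) → ℝ)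
    (hu : ∑ x, u x = 0)
    (H : ∀ α β : Fin m → ZMod 2, ∀ a b : ZMod 2, α ≠ 0 → β ≠ 0 → α ≠ β →
      ∑ x, t x * fl α a β b x = 0 → ∑ x, chi (fl α a β b x) * u x = 0) :
    ∃ (r : ℝ) (i j : Fin m → ZMod 2),
      (∀ x, u x = r * ((if x = i then 1 else 0) - (if x = j then 1 else 0))) ∧
      (r = 0 ∨ ∀ α a β b, ∑ x, t x * fl α a β b x = fl α a β b i + fl α a β b j) := by
  obtain ⟨r, i, j, h1, h2⟩ := rm2_fourier hm t (fun β => ∑ x, chi (dotProduct β x) * u x)
    (by simpa using hu) (by
      intro α β a b hα hβ hαβ h0
      have e := H α β a b hα hβ hαβ (by rw [dot_fl]; exact h0)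
      have e1 : ∀ x, chi (fl α a β b x) * u x = (1 / 2) * u x
          + (chi a / 2) * (chi (dotProduct α x) * u x) + (chi b / 2) * (chi (dotProduct β x) * u x)
          - (chi a * chi b / 2) * (chi (dotProduct (α + β) x) * u x) := by
        intro x
        unfold fl
        rw [chi_mul, chi_add, chi_add, add_dotProduct, chi_add]
        ring
      simp_rw [e1] at e
      rw [Finset.sum_sub_distrib, Finset.sum_add_distrib, Finset.sum_add_distrib,
        ← Finset.mul_sum, ← Finset.mul_sum, ← Finset.mul_sum, ← Finset.mul_sum, hu] at e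
      linarith)
  exact ⟨r, i, j, fourier_inv u r i j h1, h2⟩

end Pool.Agent.Jammed
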