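import Pool.Agent.Jammed.Code

/-!
# The configuration attached to a code is infinitesimally jammed: conclusion
-/

namespace Pool.Agent.Jammed

open scoped BigOperators

variable {ι : Type*} [Fintype ι] [DecidableEq ι] [Nonempty ι]
variable {m : ℕ} {C : Submodule (ZMod 2) (ι → ZMod 2)}

lemma fourier_big [Fintype C] (w : C → ι → ℝ) (c : C) (k : ι) :
    (2 : ℝ) ^ Fintype.card ι * w c k = ∑ t : ι → ZMod 2, chi (∑ y, t y * (c : ι → ZMod 2) y) *
      ∑ c' : C, chi (∑ y, t y * (c' : ι → ZMod 2) y) * w c' k := by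
  classical
  simp_rw [Finset.mul_sum]
  rw [Finset.sum_comm]
  have e : ∀ c' : C, ∑ t : ι → ZMod 2, chi (∑ y, t y * (c : ι → ZMod 2) y) *
      (chi (∑ y, t y * (c' : ι → ZMod 2) y) * w c' k)
      = if c = c' then (2 : ℝ) ^ Fintype.card ι * w c' k else 0 := by
    intro c'
    have e1 : ∀ t : ι → ZMod 2, chi (∑ y, t y * (c : ι → ZMod 2) y) *
      (chi (∑ y, t y * (c' : ι → ZMod 2) y) * w c' k)
      = chi (dotProduct t ((c : ι → ZMod 2) + c')) * w c' k := by
      intro t
      rw [dotProduct_add, chi_add]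
      unfold dotProduct
      ring
    simp_rw [e1]
    rw [← Finset.sum_mul, sum_chi_dot]
    have e2 : ((c : ι → ZMod 2) + c' = 0) ↔ c = c' := by
      rw [add_eq_zero_iff_eq']
      exact Subtype.coe_inj
    by_cases h : c = c'
    · rw [if_pos (e2.2 h), if_pos h]
    · rw [if_neg (fun h' => h (e2.1 h')), if_neg h, zero_mul]
  simp_rw [e]
  simp

theorem code_rigid [Fintype C] (hm : 3 ≤ m) (Sg : Set (ι ≃ (Fin m → ZMod 2)))
    (hne : Sg.Nonempty) (hC : C = ⨆ σ ∈ Sg, PPc σ) (d : C → EuclideanSpace ℝ ι)
    (h1 : ∀ c : C, inner ℝ (vec (c : ι → ZMod 2)) (d c) = 0)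
    (h2 : ∀ σ ∈ Sg, ∀ α β : Fin m → ZMod 2, ∀ a b : ZMod 2, α ≠ 0 → β ≠ 0 → α ≠ β →
      ∀ D : C, (D : ι → ZMod 2) = (fun i => fl α a β b (σ i)) → ∀ c : C,
      inner ℝ (vec (c : ι → ZMod 2)) (d (c + D))
        + inner ℝ (d c) (vec ((c + D : C) : ι → ZMod 2)) = 0) :
    ∃ A : ι → ι → ℝ, (∀ i j, A j i = - A i j) ∧
      ∀ (c : C) i, d c i = ∑ j, A i j * vec (c : ι → ZMod 2) j := by
  have hsn := sqrt_card_pos (ι := ι)
  set sn : ℝ := Real.sqrt (Fintype.card ι) with hsn'
  let w : C → ι → ℝ := fun c i => chi ((c : ι → ZMod 2) i) * d c i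
  have hw0 : ∀ c, ∑ i, w c i = 0 := by
    intro c
    have e := h1 c
    rw [inner_eq_sum] at e
    have e' : ∀ i, vec (c : ι → ZMod 2) i * d c i = w c i / sn := by
      intro i
      rw [vec_apply]
      simp only [w]
      ring
    simp_rw [e'] at e
    rw [← Finset.sum_div, div_eq_zero_iff] at e
    exact e.resolve_right hsn.ne'
  let U : (ι → ZMod 2) → ι → ℝ := fun t i => ∑ c : C, chi (∑ y, t y * (c : ι → ZMod 2) y) * w c i
  have hU0 : ∀ t, ∑ i, U t i = 0 := by
    intro t
    simp only [U]
    rw [Finset.sum_comm]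
    refine Finset.sum_eq_zero fun c _ => ?_
    rw [← Finset.mul_sum, hw0, mul_zero]
  have hUD : ∀ t : ι → ZMod 2, ∀ σ ∈ Sg, ∀ α β : Fin m → ZMod 2, ∀ a b : ZMod 2, α ≠ 0 →
      β ≠ 0 → α ≠ β → ∑ i, t i * fl α a β b (σ i) = 0 →
      ∑ i, chi (fl α a β b (σ i)) * U t i = 0 := by
    intro t σ hσ α β a b hα hβ hαβ h0
    have hmem : (fun i => fl α a β b (σ i)) ∈ C := by
      rw [hC]
      refine (le_iSup₂_of_le σ hσ le_rfl : PPc σ ≤ ⨆ σ ∈ Sg, PPc σ) (mem_PPc.2 ⟨fl α a β b, ?_, rfl⟩)
      exact Submodule.subset_span ⟨α, a, β, b, hα, hβ, hαβ, rfl⟩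
    set D : C := ⟨_, hmem⟩ with hD
    have hDi : ∀ i, (D : ι → ZMod 2) i = fl α a β b (σ i) := fun i => rfl
    let S : C → ℝ := fun c => ∑ i, chi ((D : ι → ZMod 2) i) * w c i
    have hcD : ∀ (c : C) (i : ι), ((c + D : C) : ι → ZMod 2) i
        = (c : ι → ZMod 2) i + (D : ι → ZMod 2) i := fun c i => rfl
    have hS : ∀ c, S (c + D) = - S c := by
      intro c
      have e := h2 σ hσ α β a b hα hβ hαβ D rfl c
      rw [inner_eq_sum, inner_eq_sum] at e
      have e1 : ∀ i, vec (c : ι → ZMod 2) i * d (c + D) i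
          = (chi ((D : ι → ZMod 2) i) * w (c + D) i) / sn := by
        intro i
        rw [vec_apply]
        simp only [w]
        rw [hcD, chi_add]
        have := chi_mul_self ((D : ι → ZMod 2) i)
        calc chi ((c : ι → ZMod 2) i) / sn * d (c + D) i
            = (chi ((D : ι → ZMod 2) i) * chi ((D : ι → ZMod 2) i)) *
              (chi ((c : ι → ZMod 2) i) * d (c + D) i) / sn := by rw [this]; ring
          _ = _ := by ring
      have e2 : ∀ i, d c i * vec ((c + D : C) : ι → ZMod 2) i
          = (chi ((D : ι → ZMod 2) i) * w c i) / sn := by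
        intro i
        rw [vec_apply]
        simp only [w]
        rw [hcD, chi_add]
        ring
      simp_rw [e1, e2] at e
      rw [← Finset.sum_div, ← Finset.sum_div, ← add_div, div_eq_zero_iff] at e
      have e3 := e.resolve_right hsn.ne'
      simp only [S]
      linarith
    have hZ : ∑ i, chi (fl α a β b (σ i)) * U t i
        = ∑ c : C, chi (∑ y, t y * (c : ι → ZMod 2) y) * S c := by
      simp only [U, S, Finset.mul_sum]
      rw [Finset.sum_comm]
      refine Finset.sum_congr rfl fun c _ => Finset.sum_congr rfl fun i _ => ?_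
      rw [hDi]
      ring
    rw [hZ]
    have hneg : ∑ c : C, chi (∑ y, t y * (c : ι → ZMod 2) y) * S c
        = - ∑ c : C, chi (∑ y, t y * (c : ι → ZMod 2) y) * S c := by
      conv_lhs => rw [← sum_translate D (fun c => chi (∑ y, t y * (c : ι → ZMod 2) y) * S c)]
      rw [← Finset.sum_neg_distrib]
      refine Finset.sum_congr rfl fun c _ => ?_
      rw [hS c]
      have : ∑ y, t y * ((c + D : C) : ι → ZMod 2) y = ∑ y, t y * (c : ι → ZMod 2) y := by
        simp_rw [hcD, mul_add]
        rw [Finset.sum_add_distrib]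
        simp_rw [hDi]
        rw [h0, add_zero]
      rw [this]
      ring
    linarith
  choose r p q hr1 hr2 using fun t => u_dichotomy hm Sg hne hC t (U t) (hU0 t) (hUD t)
  have key : ∀ (t : ι → ZMod 2) (c : C) (k : ι),
      chi ((c : ι → ZMod 2) k) * (chi (∑ y, t y * (c : ι → ZMod 2) y) * U t k)
      = r t * ((if k = p t then chi ((c : ι → ZMod 2) (q t)) else 0)
        - (if k = q t then chi ((c : ι → ZMod 2) (p t)) else 0)) := by
    intro t c k
    rcases hr2 t with h0 | h0
    · rw [hr1 t k, h0]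
      ring
    · rw [hr1 t k, h0 c c.2, chi_add]
      have s1 := chi_mul_self ((c : ι → ZMod 2) (p t))
      have s2 := chi_mul_self ((c : ι → ZMod 2) (q t))
      by_cases k1 : k = p t
      · by_cases k2 : k = q t
        · have : p t = q t := k1.symm.trans k2
          rw [if_pos k1, if_pos k2, if_pos k1, if_pos k2, this]
          ring
        · rw [if_pos k1, if_neg k2, if_pos k1, if_neg k2, k1]
          linear_combination (r t * chi ((c : ι → ZMod 2) (q t))) * s1
      · by_cases k2 : k = q t
        · rw [if_neg k1, if_pos k2, if_neg k1, if_pos k2, k2]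
          linear_combination (- r t * chi ((c : ι → ZMod 2) (p t))) * s2
        · rw [if_neg k1, if_neg k2, if_neg k1, if_neg k2]
          ring
  have h2n : (2 : ℝ) ^ Fintype.card ι ≠ 0 := by positivity
  refine ⟨fun k l => (sn / 2 ^ Fintype.card ι) * ∑ t : ι → ZMod 2, r t *
    ((if k = p t then (if l = q t then (1 : ℝ) else 0) else 0)
      - (if k = q t then (if l = p t then (1 : ℝ) else 0) else 0)), ?_, ?_⟩
  · intro k l
    beta_reduce
    rw [← mul_neg]
    congr 1
    refine Eq.trans ?_ (Finset.sum_neg_distrib _)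
    refine Finset.sum_congr rfl fun t _ => ?_
    split_ifs <;> ring
  · intro c k
    have e1 : d c k = chi ((c : ι → ZMod 2) k) * w c k := by
      simp only [w]
      rw [← mul_assoc, chi_mul_self, one_mul]
    have e2 : (2 : ℝ) ^ Fintype.card ι * d c k = ∑ t : ι → ZMod 2, r t *
        ((if k = p t then chi ((c : ι → ZMod 2) (q t)) else 0)
        - (if k = q t then chi ((c : ι → ZMod 2) (p t)) else 0)) := by
      rw [e1]
      have := fourier_big w c k
      calc (2 : ℝ) ^ Fintype.card ι * (chi ((c : ι → ZMod 2) k) * w c k)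
          = chi ((c : ι → ZMod 2) k) * ((2 : ℝ) ^ Fintype.card ι * w c k) := by ring
        _ = _ := by
            rw [this, Finset.mul_sum]
            exact Finset.sum_congr rfl fun t _ => key t c k
    have e3 : ∑ l, ((sn / 2 ^ Fintype.card ι) * ∑ t : ι → ZMod 2, r t *
        ((if k = p t then (if l = q t then (1 : ℝ) else 0) else 0)
        - (if k = q t then (if l = p t then 1 else 0) else 0))) * vec (c : ι → ZMod 2) l
        = (1 / 2 ^ Fintype.card ι) * ∑ t : ι → ZMod 2, r t *
        ((if k = p t then chi ((c : ι → ZMod 2) (q t)) else 0)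
        - (if k = q t then chi ((c : ι → ZMod 2) (p t)) else 0)) := by
      have e4 : ∀ l, ((sn / 2 ^ Fintype.card ι) * ∑ t : ι → ZMod 2, r t *
        ((if k = p t then (if l = q t then (1 : ℝ) else 0) else 0)
        - (if k = q t then (if l = p t then 1 else 0) else 0))) * vec (c : ι → ZMod 2) l
        = ∑ t : ι → ZMod 2, (1 / 2 ^ Fintype.card ι) * (r t *
          ((if k = p t then (if l = q t then chi ((c : ι → ZMod 2) l) else 0) else 0)
          - (if k = q t then (if l = p t then chi ((c : ι → ZMod 2) l) else 0) else 0))) := by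
        intro l
        rw [Finset.mul_sum, Finset.sum_mul]
        refine Finset.sum_congr rfl fun t _ => ?_
        rw [vec_apply]
        have hA : (if k = p t then (if l = q t then chi ((c : ι → ZMod 2) l) else 0) else 0)
            = (if k = p t then (if l = q t then (1 : ℝ) else 0) else 0)
              * chi ((c : ι → ZMod 2) l) := by
          split_ifs <;> simp
        have hB : (if k = q t then (if l = p t then chi ((c : ι → ZMod 2) l) else 0) else 0)
            = (if k = q t then (if l = p t then (1 : ℝ) else 0) else 0)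
              * chi ((c : ι → ZMod 2) l) := by
          split_ifs <;> simp
        rw [hA, hB, ← hsn']
        field_simp
      simp_rw [e4]
      rw [Finset.sum_comm, Finset.mul_sum]
      refine Finset.sum_congr rfl fun t _ => ?_
      rw [← Finset.mul_sum, ← Finset.mul_sum, Finset.sum_sub_distrib]
      congr 3
      · split_ifs
        · simp
        · simp
      · split_ifs
        · simp
        · simp
    rw [e3, ← e2]
    field_simp

end Pool.Agent.Jammed
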