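import Pool.Agent.Jammed.RM2Main

/-!
# The code spanned by the flats: weights and size
-/

namespace Pool.Agent.Jammed

open scoped BigOperators

variable {m : ℕ}

/-- the set of (indicator functions of) codimension two flats -/
def flats (m : ℕ) : Set ((Fin m → ZMod 2) → ZMod 2) :=
  {c | ∃ α a β b, α ≠ 0 ∧ β ≠ 0 ∧ α ≠ β ∧ c = fl (m := m) α a β b}

/-- the code spanned by the flats -/
def PP (m : ℕ) : Submodule (ZMod 2) ((Fin m → ZMod 2) → ZMod 2) :=
  Submodule.span (ZMod 2) (flats m)

/-- the weight of a word -/
def wt {ι : Type*} [Fintype ι] (c : ι → ZMod 2) : ℕ := (Finset.univ.filter fun i => c i = 1).card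

section Deriv

variable {V : Type*} [AddCommGroup V] [Fintype V]

lemma wt_compl {ι : Type*} [Fintype ι] (c : ι → ZMod 2) :
    wt c + wt (fun i => c i + 1) = Fintype.card ι := by
  classical
  unfold wt
  have : (Finset.univ.filter fun i => c i + 1 = 1) = Finset.univ.filter fun i => ¬ c i = 1 := by
    ext i
    simp only [Finset.mem_filter, Finset.mem_univ, true_and]
    rcases zmod2_cases (c i) with h | h <;> rw [h] <;> decide
  rw [this, Finset.card_filter_add_card_filter_not]
  rfl

lemma wt_translate (c : V → ZMod 2) (h : V) : wt (fun x => c (x + h)) = wt c := by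
  classical
  unfold wt
  refine Finset.card_bij (fun x _ => x + h) ?_ ?_ ?_
  · intro x hx
    simpa using hx
  · intro x _ y _ hxy
    exact add_right_cancel hxy
  · intro y hy
    refine ⟨y - h, ?_, by simp⟩
    simpa using hy

lemma wt_add_le {ι : Type*} [Fintype ι] (c d : ι → ZMod 2) :
    wt (fun i => c i + d i) ≤ wt c + wt d := by
  classical
  unfold wt
  refine le_trans (Finset.card_le_card ?_) (Finset.card_union_le _ _)
  intro i
  simp only [Finset.mem_filter, Finset.mem_univ, true_and, Finset.mem_union]
  rcases zmod2_cases (c i) with h | h <;> rcases zmod2_cases (d i) with h' | h' <;>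
    rw [h, h'] <;> decide

lemma half_of_deriv_one (g : V → ZMod 2) (k : V) (hk : ∀ x, g (x + k) + g x = 1) :
    2 * wt g = Fintype.card V := by
  have h1 := wt_compl g
  have h2 : wt (fun x => g x + 1) = wt g := by
    rw [← wt_translate g k]
    congr 1
    funext x
    rw [← hk x]
    rw [add_comm (g (x + k)), ← add_assoc, zmod2_add_self, zero_add]
  omega

lemma deg1_weight (g : V → ZMod 2) (hg : ∀ x k l, g x + g (x + k) + g (x + l) + g (x + k + l) = 0)
    (hne : ∃ x, g x ≠ 0) : Fintype.card V ≤ 2 * wt g := by
  classical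
  by_cases h : ∃ k x, g (x + k) + g x ≠ 0
  · obtain ⟨k, x₀, hx₀⟩ := h
    refine (half_of_deriv_one g k fun x => ?_).ge
    have h1 : g (x₀ + k) + g x₀ = 1 := (zmod2_cases _).resolve_left hx₀
    have h2 := hg x₀ k (x - x₀)
    have h3 : x₀ + (x - x₀) = x := by abel
    have h4 : x₀ + k + (x - x₀) = x + k := by abel
    rw [h3, h4] at h2
    have h5 : (g (x₀ + k) + g x₀) + (g (x + k) + g x) = 0 := by
      rw [← h2]; ring
    rw [h1] at h5
    rcases zmod2_cases (g (x + k) + g x) with h6 | h6
    · rw [h6] at h5
      exact absurd h5 (by decide)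
    · exact h6
  · push Not at h
    obtain ⟨x₀, hx₀⟩ := hne
    have h1 : g x₀ = 1 := (zmod2_cases _).resolve_left hx₀
    have hall : ∀ x, g x = 1 := by
      intro x
      have h2 := h (x - x₀) x₀
      have h3 : x₀ + (x - x₀) = x := by abel
      rw [h3, h1] at h2
      rcases zmod2_cases (g x) with h6 | h6
      · rw [h6] at h2
        exact absurd h2 (by decide)
      · exact h6
    have : wt g = Fintype.card V := by
      unfold wt
      rw [Finset.filter_true_of_mem (fun x _ => hall x)]
      rfl
    omega

lemma deg2_weight (c : V → ZMod 2)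
    (hc : ∀ x h k l, c x + c (x + h) + c (x + k) + c (x + h + k) + c (x + l) + c (x + h + l)
      + c (x + k + l) + c (x + h + k + l) = 0)
    (hne : ∃ x y, c x ≠ c y) : Fintype.card V ≤ 4 * wt c := by
  obtain ⟨x₀, y₀, hxy⟩ := hne
  set h := y₀ - x₀ with hh
  have h1 := deg1_weight (fun x => c x + c (x + h)) (by
    intro x k l
    rw [← hc x h k l]
    have e1 : x + k + h = x + h + k := by abel
    have e2 : x + l + h = x + h + l := by abel
    have e3 : x + k + l + h = x + h + k + l := by abel
    rw [e1, e2, e3]
    ring) ⟨x₀, by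
      have : x₀ + h = y₀ := by rw [hh]; abel
      simp only [this]
      intro h0
      apply hxy
      rcases zmod2_cases (c x₀) with h3 | h3 <;> rcases zmod2_cases (c y₀) with h4 | h4 <;>
        rw [h3, h4] at h0 ⊢ <;> revert h0 <;> decide⟩
  have h2 := wt_add_le c (fun x => c (x + h))
  rw [wt_translate c h] at h2
  omega

end Deriv

lemma fl_deg2 (α : Fin m → ZMod 2) (a : ZMod 2) (β : Fin m → ZMod 2) (b : ZMod 2)
    (x h k l : Fin m → ZMod 2) :
    fl α a β b x + fl α a β b (x + h) + fl α a β b (x + k) + fl α a β b (x + h + k)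
      + fl α a β b (x + l) + fl α a β b (x + h + l)
      + fl α a β b (x + k + l) + fl α a β b (x + h + k + l) = 0 := by
  unfold fl
  simp only [dotProduct_add]
  generalize dotProduct α x = p
  generalize dotProduct α h = p1
  generalize dotProduct α k = p2
  generalize dotProduct α l = p3
  generalize dotProduct β x = q
  generalize dotProduct β h = q1
  generalize dotProduct β k = q2
  generalize dotProduct β l = q3
  have h2 : (2 : ZMod 2) = 0 := rfl
  ring_nf
  have h8 : (8 : ZMod 2) = 0 := rfl
  have h4 : (4 : ZMod 2) = 0 := rfl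
  simp [h8, h4, h2]

lemma PP_deg2 {c : (Fin m → ZMod 2) → ZMod 2} (hc : c ∈ PP m) (x h k l : Fin m → ZMod 2) :
    c x + c (x + h) + c (x + k) + c (x + h + k) + c (x + l) + c (x + h + l)
      + c (x + k + l) + c (x + h + k + l) = 0 := by
  unfold PP at hc
  induction hc using Submodule.span_induction with
  | mem c hc =>
    obtain ⟨α, a, β, b, -, -, -, rfl⟩ := hc
    exact fl_deg2 α a β b x h k l
  | zero => simp
  | add c d _ _ hc hd =>
    simp only [Pi.add_apply]
    linear_combination hc + hd
  | smul r c _ hc =>
    simp only [Pi.smul_apply, smul_eq_mul]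
    linear_combination r * hc

lemma PP_weight {c : (Fin m → ZMod 2) → ZMod 2} (hc : c ∈ PP m) (h0 : c ≠ 0) (h1 : c ≠ 1) :
    2 ^ m ≤ 4 * wt c := by
  have := deg2_weight c (PP_deg2 hc) (by
    by_contra hcon
    push Not at hcon
    rcases zmod2_cases (c 0) with h | h
    · apply h0
      funext x
      rw [hcon x 0, h]
      rfl
    · apply h1
      funext x
      rw [hcon x 0, h]
      rfl)
  simpa [Fintype.card_pi] using this

end Pool.Agent.Jammed
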